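import Pool.Agent.Lib.MP_7b562e_lc.Defs

namespace Pool.Agent.Lib.MP_7b562e_lc

open Encodable Nat.Partrec

/-- Step-bounded run of a code on a coded input, decoded as a string. -/
def run {α : Type} [Primcodable α] (c : Code) (a : α) (t : ℕ) : Option (List Bool) :=
  (Code.evaln t c (encode a)).bind (decode (α := List Bool))

lemma run_primrec {α : Type} [Primcodable α] :
    Primrec fun x : Code × α × ℕ => run x.1 x.2.1 x.2.2 := by
  unfold run
  refine Primrec.option_bind ?_ (Primrec.decode.comp Primrec.snd).to₂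
  exact Code.primrec_evaln.comp
    (((Primrec.snd.comp Primrec.snd).pair Primrec.fst).pair
      (Primrec.encode.comp (Primrec.fst.comp Primrec.snd)))

lemma run_mono {α : Type} [Primcodable α] (c : Code) (a : α) {s t : ℕ} (h : s ≤ t)
    {σ : List Bool} (hs : σ ∈ run c a s) : σ ∈ run c a t := by
  unfold run at *
  rw [Option.mem_def, Option.bind_eq_some_iff] at *
  obtain ⟨x, hx, hd⟩ := hs
  exact ⟨x, Code.evaln_mono h hx, hd⟩

lemma exists_run {α : Type} [Primcodable α] {f : α →. List Bool} (hf : Partrec f) :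
    ∃ c : Code, ∀ a σ, σ ∈ f a ↔ ∃ t, σ ∈ run c a t := by
  obtain ⟨c, hc⟩ := Code.exists_code.1 hf
  refine ⟨c, fun a σ => ?_⟩
  have key : ∀ x, x ∈ c.eval (encode a) ↔ ∃ τ ∈ f a, encode τ = x := by
    intro x
    rw [hc]
    simp [encodek]
  constructor
  · intro h
    obtain ⟨t, ht⟩ := Code.evaln_complete.1 ((key _).2 ⟨σ, h, rfl⟩)
    refine ⟨t, ?_⟩
    unfold run
    rw [Option.mem_def] at ht
    simp [ht]
  · rintro ⟨t, ht⟩
    unfold run at ht
    rw [Option.mem_def, Option.bind_eq_some_iff] at ht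
    obtain ⟨x, hx, hd⟩ := ht
    obtain ⟨τ, hτ, rfl⟩ := (key x).1 (Code.evaln_sound hx)
    rw [encodek] at hd
    cases hd
    exact hτ

/-- Length of the leading block of ones. -/
def hd (p : List Bool) : ℕ := p.findIdx fun b => !b

/-- The part after the leading block of ones and the separating zero. -/
def tl (p : List Bool) : List Bool := p.drop (hd p + 1)

/-- Self-delimiting header. -/
def mk (e : ℕ) (q : List Bool) : List Bool := List.replicate e true ++ false :: q

lemma hd_primrec : Primrec hd :=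
  Primrec.list_findIdx Primrec.id (Primrec.not.comp Primrec.snd).to₂

lemma tl_primrec : Primrec tl :=
  Primrec.list_drop.comp (Primrec.succ.comp hd_primrec) Primrec.id

@[simp] lemma hd_mk (e : ℕ) (q : List Bool) : hd (mk e q) = e := by
  unfold hd mk
  induction e with
  | zero => simp [List.findIdx_cons]
  | succ n ih => simp [List.replicate_succ, List.findIdx_cons, ih]

@[simp] lemma tl_mk (e : ℕ) (q : List Bool) : tl (mk e q) = q := by
  unfold tl
  rw [hd_mk]
  unfold mk
  induction e with
  | zero => simp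
  | succ n ih => simpa [List.replicate_succ] using ih

@[simp] lemma length_mk (e : ℕ) (q : List Bool) : (mk e q).length = q.length + (e + 1) := by
  simp [mk]; ring

@[simp] lemma length_initSeg (X : Set ℕ) (n : ℕ) : (initSeg X n).length = n := by
  simp [initSeg]

lemma take_initSeg (X : Set ℕ) {l n : ℕ} (h : l ≤ n) : (initSeg X n).take l = initSeg X l := by
  unfold initSeg
  rw [← List.map_take, List.take_range, min_eq_left h]

lemma initSeg_append (X : Set ℕ) {l n : ℕ} (h : l ≤ n) :
    ∃ ρ, initSeg X n = initSeg X l ++ ρ :=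
  ⟨(initSeg X n).drop l, by rw [← take_initSeg X h, List.take_append_drop]⟩

lemma getD_initSeg (X : Set ℕ) (n x : ℕ) :
    (initSeg X n).getD x false = true ↔ x < n ∧ x ∈ X := by
  unfold initSeg
  by_cases h : x < n
  · simp [List.getD_eq_getElem?_getD, h]
  · simp [List.getD_eq_getElem?_getD, h]

lemma iInf_le_add {P Q : List Bool → Prop} (c : ℕ)
    (h : ∀ q, Q q → ∃ p, P p ∧ p.length ≤ q.length + c) :
    (⨅ (p : List Bool) (_ : P p), (p.length : ℕ∞)) ≤
      (⨅ (q : List Bool) (_ : Q q), (q.length : ℕ∞)) + c := by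
  rw [ENat.iInf_add]
  refine le_iInf fun q => ?_
  rw [ENat.iInf_add]
  refine le_iInf fun hq => ?_
  obtain ⟨p, hp, hl⟩ := h q hq
  refine iInf₂_le_of_le p hp ?_
  exact_mod_cast hl

theorem exists_condOptimal : ∃ U, CondOptimal U := by
  refine ⟨fun x => Nat.rfindOpt fun t =>
    run (Denumerable.ofNat Code (hd x.1)) (tl x.1, x.2) t, ?_, ?_⟩
  · refine Partrec.rfindOpt ?_
    exact (run_primrec.comp
      (((Primrec.ofNat Code).comp (hd_primrec.comp (Primrec.fst.comp Primrec.fst))).pair
        (((tl_primrec.comp (Primrec.fst.comp Primrec.fst)).pair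
          (Primrec.snd.comp Primrec.fst)).pair Primrec.snd))).to_comp
  · intro D hD
    obtain ⟨c, hc⟩ := exists_run hD
    refine ⟨encode c + 1, fun σ n => iInf_le_add _ fun q hq => ⟨mk (encode c) q, ?_, by simp⟩⟩
    rw [Nat.rfindOpt_mono (fun h h' => run_mono _ _ h h')]
    simpa using (hc _ _).1 hq

/-- One step of the universal oracle machine. -/
def ostep (x : List Bool × List Bool) (j : ℕ) : Option (List Bool) :=
  if j ≤ x.2.length then
    run (Denumerable.ofNat Code (hd x.1)) (tl x.1, x.2.take j.unpair.2) j.unpair.1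
  else none

lemma ostep_primrec : Primrec₂ ostep := by
  unfold ostep
  refine Primrec.ite (Primrec.nat_le.comp Primrec.snd
    (Primrec.list_length.comp (Primrec.snd.comp Primrec.fst))) ?_ (Primrec.const none)
  exact run_primrec.comp
      (((Primrec.ofNat Code).comp (hd_primrec.comp (Primrec.fst.comp Primrec.fst))).pair
        (((tl_primrec.comp (Primrec.fst.comp Primrec.fst)).pair
          (Primrec.list_take.comp (Primrec.snd.comp (Primrec.unpair.comp Primrec.snd))
            (Primrec.snd.comp Primrec.fst))).pair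
          (Primrec.fst.comp (Primrec.unpair.comp Primrec.snd))))

lemma mem_rfindOpt {α : Type} {f : ℕ → Option α} {a : α} :
    a ∈ Nat.rfindOpt f ↔ ∃ n, f n = some a ∧ ∀ m < n, f m = Option.none := by
  unfold Nat.rfindOpt
  simp only [Part.mem_bind_iff, Nat.mem_rfind, Part.mem_coe, Option.mem_def]
  constructor
  · rintro ⟨n, ⟨-, h2⟩, h3⟩
    refine ⟨n, h3, fun m hm => ?_⟩
    have := h2 hm
    simpa using this
  · rintro ⟨n, h1, h2⟩
    refine ⟨n, ⟨by simp [h1], fun {m} hm => by simp [h2 m hm]⟩, h1⟩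

theorem exists_oracleOptimal : ∃ V, OracleOptimal V := by
  refine ⟨fun x => Nat.rfindOpt (ostep x), ⟨Partrec.rfindOpt ostep_primrec.to_comp, ?_⟩, ?_⟩
  · intro p τ ρ σ h
    rw [mem_rfindOpt] at h ⊢
    obtain ⟨n, h1, h2⟩ := h
    have hn : n ≤ τ.length := by
      by_contra hn
      simp [ostep, hn] at h1
    have key : ∀ m ≤ n, ostep (p, τ ++ ρ) m = ostep (p, τ) m := by
      intro m hm
      have h3 : m ≤ τ.length := hm.trans hn
      have h4 : m ≤ (τ ++ ρ).length := by simp; omega
      have h5 : m.unpair.2 ≤ τ.length := (Nat.unpair_right_le m).trans h3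
      simp only [ostep, h3, h4, if_true, List.take_append_of_le_length h5]
    exact ⟨n, by rw [key n le_rfl, h1], fun m hm => by rw [key m hm.le, h2 m hm]⟩
  · rintro M ⟨hM, hmono⟩
    obtain ⟨c, hc⟩ := exists_run hM
    refine ⟨encode c + 1, fun X σ => iInf_le_add _ fun q hq => ⟨mk (encode c) q, ?_, by simp⟩⟩
    obtain ⟨l, hl⟩ := hq
    obtain ⟨t, ht⟩ := (hc _ _).1 hl
    have hstep : ∀ n j, j ≤ n → ostep (mk (encode c) q, initSeg X n) j =
        run c (q, initSeg X j.unpair.2) j.unpair.1 := by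
      intro n j hj
      simp [ostep, hj, take_initSeg X ((Nat.unpair_right_le j).trans hj)]
    refine ⟨Nat.pair t l, ?_⟩
    have hdom : (Nat.rfindOpt (ostep (mk (encode c) q, initSeg X (Nat.pair t l)))).Dom := by
      rw [Nat.rfindOpt_dom]
      exact ⟨Nat.pair t l, σ, by rw [hstep _ _ le_rfl]; simpa using ht⟩
    obtain ⟨σ', hσ'⟩ := Part.dom_iff_mem.1 hdom
    obtain ⟨j, hj⟩ := Nat.rfindOpt_spec hσ'
    have hjn : j ≤ Nat.pair t l := by
      by_contra h
      simp [ostep, h] at hj
    rw [hstep _ _ hjn] at hj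
    have h1 : σ' ∈ M (q, initSeg X j.unpair.2) := (hc _ _).2 ⟨_, hj⟩
    obtain ⟨ρ1, e1⟩ := initSeg_append X (le_max_left l j.unpair.2)
    obtain ⟨ρ2, e2⟩ := initSeg_append X (le_max_right l j.unpair.2)
    have h2 := hmono _ _ ρ1 _ hl
    have h3 := hmono _ _ ρ2 _ h1
    rw [← e1] at h2
    rw [← e2] at h3
    rwa [Part.mem_unique h2 h3]

end Pool.Agent.Lib.MP_7b562e_lc
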