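import Mathlib

namespace Pool.Agent.Lib.MP_7b562e_lc

/-- Plain complexity of a string given a number, for a decompressor `U` acting on
(program, number). -/
noncomputable def condC (U : List Bool × ℕ →. List Bool) (σ : List Bool) (n : ℕ) : ℕ∞ :=
  ⨅ (p : List Bool) (_ : σ ∈ U (p, n)), (p.length : ℕ∞)

/-- `U` is an optimal (universal) decompressor for conditional plain complexity. -/
def CondOptimal (U : List Bool × ℕ →. List Bool) : Prop :=
  Partrec U ∧ ∀ D : List Bool × ℕ →. List Bool, Partrec D →
    ∃ c : ℕ, ∀ σ n, condC U σ n ≤ condC D σ n + c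

open Classical in
/-- The first `n` bits of the characteristic sequence of `X`. -/
noncomputable def initSeg (X : Set ℕ) (n : ℕ) : List Bool :=
  (List.range n).map fun i => decide (i ∈ X)

/-- An oracle machine (Turing functional): a partial recursive function of a program and a
finite initial segment of the oracle whose outputs persist on longer initial segments. -/
def IsOracleMachine (M : List Bool × List Bool →. List Bool) : Prop :=
  Partrec M ∧ ∀ p τ ρ σ, σ ∈ M (p, τ) → σ ∈ M (p, τ ++ ρ)

/-- Plain complexity relative to the oracle `X`, for the oracle machine `M`. -/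
noncomputable def oracleC (M : List Bool × List Bool →. List Bool) (X : Set ℕ)
    (σ : List Bool) : ℕ∞ :=
  ⨅ (p : List Bool) (_ : ∃ n, σ ∈ M (p, initSeg X n)), (p.length : ℕ∞)

/-- `V` is an optimal (universal) oracle machine. -/
def OracleOptimal (V : List Bool × List Bool →. List Bool) : Prop :=
  IsOracleMachine V ∧ ∀ M : List Bool × List Bool →. List Bool, IsOracleMachine M →
    ∃ c : ℕ, ∀ X σ, oracleC V X σ ≤ oracleC M X σ + c

end Pool.Agent.Lib.MP_7b562e_lc
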