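import Pool.Agent.Lib.MP_7b562e_lc.H47Tree

/-! Homogeneous sets never compress below the logarithm of the plain complexity. -/

namespace Pool.Agent.Lib.MP_7b562e_lc

open Encodable Nat.Partrec Filter

/-- A short program is seen by time `t` to print `σ` on the oracle segment `τ`. -/
def Prints (v : Code) (ℓ : ℕ) (σ τ : List Bool) (t : ℕ) : Prop :=
  ∃ j < t, 2 ^ ((dec j).length + 2) ≤ ℓ ∧ run v (dec j, τ) t = some σ

/-- All positions marked by `F` have colour `z` in `w`. -/
def Mono {γ : Type} (d : γ) (F : List Bool) (w : List γ) (z : γ) : Prop :=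
  ∀ x < F.length, F.getD x false = true → w.getD x d = z

/-- The segment `h` has an extension inside the class `z` of `w` on which `σ` is printed. -/
def Grows (v : Code) (ℓ : ℕ) (σ h : List Bool) (w : List (List Bool)) (z : List Bool) : Prop :=
  ∃ n < w.length + 1, ∃ F ∈ bits n, Mono [] F w z ∧ Prints v ℓ σ (h ++ F) w.length

/-- Some class of `w` extends every segment homogeneous for `B`. -/
def Fine (v : Code) (ℓ : ℕ) (σ B : List Bool) (w : List (List Bool)) : Prop :=
  ∃ z ∈ bits (2 ^ ℓ), ∀ h ∈ bits B.length, ∀ b ∈ [false, true], Mono false h B b →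
    Grows v ℓ σ h w z

lemma prints_primrec (v : Code) : PrimrecPred fun y : (ℕ × List Bool) × List Bool × ℕ =>
    Prints v y.1.1 y.1.2 y.2.1 y.2.2 :=
  pex_lt (Primrec.snd.comp Primrec.snd) (PrimrecPred.and
    (Primrec.nat_le.comp (ptwo_pow.comp (Primrec.nat_add.comp
      (Primrec.list_length.comp (dec_primrec.comp Primrec.snd)) (Primrec.const 2)))
      (Primrec.fst.comp (Primrec.fst.comp Primrec.fst)))
    (Primrec.eq.comp (run_primrec.comp ((Primrec.const v).pair
      (((dec_primrec.comp Primrec.snd).pair (Primrec.fst.comp (Primrec.snd.comp Primrec.fst))).pair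
        (Primrec.snd.comp (Primrec.snd.comp Primrec.fst)))))
      (Primrec.option_some.comp (Primrec.snd.comp (Primrec.fst.comp Primrec.fst)))))

lemma mono_primrec {γ : Type} [Primcodable γ] (d : γ) :
    PrimrecPred fun y : List Bool × List γ × γ => Mono d y.1 y.2.1 y.2.2 :=
  pall_lt (Primrec.list_length.comp Primrec.fst) (pimp
    (Primrec.eq.comp ((Primrec.list_getD false).comp (Primrec.fst.comp Primrec.fst) Primrec.snd)
      (Primrec.const true))
    (Primrec.eq.comp ((Primrec.list_getD d).comp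
      (Primrec.fst.comp (Primrec.snd.comp Primrec.fst)) Primrec.snd)
      (Primrec.snd.comp (Primrec.snd.comp Primrec.fst))))

lemma grows_primrec (v : Code) :
    PrimrecPred fun y : (ℕ × List Bool) × List Bool × List (List Bool) × List Bool =>
      Grows v y.1.1 y.1.2 y.2.1 y.2.2.1 y.2.2.2 := by
  have hw : Primrec fun y : (ℕ × List Bool) × List Bool × List (List Bool) × List Bool =>
      y.2.2.1.length := Primrec.list_length.comp (Primrec.fst.comp (Primrec.snd.comp Primrec.snd))
  refine pex_lt (Primrec.succ.comp hw) (pex (bits_primrec.comp Primrec.snd) (PrimrecPred.and ?_ ?_))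
  · exact (mono_primrec []).comp (Primrec.snd.pair
      (Primrec.snd.comp (Primrec.snd.comp (Primrec.fst.comp Primrec.fst))))
  · exact (prints_primrec v).comp ((Primrec.fst.comp (Primrec.fst.comp Primrec.fst)).pair
      ((Primrec.list_append.comp (Primrec.fst.comp (Primrec.snd.comp
        (Primrec.fst.comp Primrec.fst))) Primrec.snd).pair
        (hw.comp (Primrec.fst.comp Primrec.fst))))

lemma fine_primrec (v : Code) :
    PrimrecPred fun y : (ℕ × List Bool) × List Bool × List (List Bool) =>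
      Fine v y.1.1 y.1.2 y.2.1 y.2.2 := by
  refine pex (bits_primrec.comp (ptwo_pow.comp (Primrec.fst.comp Primrec.fst)))
    (pall (bits_primrec.comp (Primrec.list_length.comp
      (Primrec.fst.comp (Primrec.snd.comp Primrec.fst)))) (pall (Primrec.const _) (pimp ?_ ?_)))
  · exact (mono_primrec false).comp ((Primrec.snd.comp Primrec.fst).pair
      ((Primrec.fst.comp (Primrec.snd.comp (Primrec.fst.comp (Primrec.fst.comp Primrec.fst)))).pair
        Primrec.snd))
  · exact (grows_primrec v).comp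
      ((Primrec.fst.comp (Primrec.fst.comp (Primrec.fst.comp Primrec.fst))).pair
        ((Primrec.snd.comp Primrec.fst).pair ((Primrec.snd.comp (Primrec.snd.comp
          (Primrec.fst.comp (Primrec.fst.comp Primrec.fst)))).pair
          (Primrec.snd.comp (Primrec.fst.comp Primrec.fst)))))

lemma Fine.append {v : Code} {ℓ : ℕ} {σ B : List Bool} {w : List (List Bool)}
    (h : Fine v ℓ σ B w) (w' : List (List Bool)) : Fine v ℓ σ B (w ++ w') := by
  obtain ⟨z, hz, h⟩ := h
  refine ⟨z, hz, fun g hg b hb hm => ?_⟩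
  obtain ⟨n, hn, F, hF, h1, j, hj, h2, h3⟩ := h g hg b hb hm
  rw [mem_bits] at hF
  exact ⟨n, by simp; omega, F, by simpa using hF, fun x hx hx' => by
    rw [List.getD_append _ _ _ _ (by omega)]; exact h1 x hx hx', j, by simp; omega, h2,
    run_mono _ _ (by simp) h3⟩

section Main

variable {V : List Bool × List Bool →. List Bool} (hV : IsOracleMachine V) {v : Code}
  (hv : ∀ y σ, σ ∈ V y ↔ ∃ t, σ ∈ run v y t)

include hV hv in
lemma exists_cert {A : Set ℕ}
    (hA : ¬ ∃ (f : ℕ → Bool) (n : ℕ), Computable f ∧ ∀ x, n ≤ x → (f x = true ↔ x ∈ A))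
    {σ : List Bool} {a : ℕ} (hσ : ∀ X : Set ℕ, X.Infinite → (X ⊆ A ∨ X ⊆ Aᶜ) →
      ∃ p : List Bool, p.length ≤ a ∧ ∃ n, σ ∈ V (p, initSeg X n)) (u : ℕ) :
    ∃ t, ∀ w ∈ words (bits (2 ^ 2 ^ (a + 2))) t, Fine v (2 ^ (a + 2)) σ (initSeg A u) w := by
  classical
  by_contra hc
  push Not at hc
  obtain ⟨β, hβ, z, hz, h1, h2⟩ := tree_split (A := {x | u + x ∈ A})
    (P := fun w => ¬ Fine v (2 ^ (a + 2)) σ (initSeg A u) w)
    (PrimrecPred.not ((fine_primrec v).comp ((Primrec.const (2 ^ (a + 2), σ)).pair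
      ((Primrec.const (initSeg A u)).pair Primrec.id))))
    (fun w w' h h' => h (h'.append w')) hc (by
      rintro ⟨f, n, hf, hf'⟩
      refine hA ⟨fun x => f (x - u), u + n, hf.comp (Primrec.nat_sub.comp Primrec.id
        (Primrec.const u)).to_comp, fun x hx => ?_⟩
      rw [hf' _ (by omega), Set.mem_ofPred_eq, Nat.add_sub_cancel' (by omega)])
  obtain ⟨t, ht⟩ := (eventually_list (P := fun h t => ∀ b ∈ [false, true],
      Mono false h (initSeg A u) b → Grows v (2 ^ (a + 2)) σ h ((List.range t).map β) z)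
      (bits (initSeg A u).length) fun h hh => eventually_list _ fun b _ => by
    by_cases hm : Mono false h (initSeg A u) b
    swap
    · exact Eventually.of_forall fun _ h => absurd h hm
    have hl : h.length = u := by simpa using hh
    let X : Set ℕ := {x | x < u ∧ h.getD x false = true} ∪
      (fun x => u + x) '' {x | β x = z ∧ (u + x ∈ A ↔ b = true)}
    have hX : ∀ x ∈ X, (x ∈ A ↔ b = true) := by
      rintro x (⟨h3, h4⟩ | ⟨y, hy, rfl⟩)
      · rw [← hm x (by omega) h4, getD_initSeg]
        tauto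
      · exact hy.2
    obtain ⟨p, hp, n, hn⟩ := hσ X (Set.Infinite.mono Set.subset_union_right
      (Set.Infinite.image (fun _ _ _ _ h => by simpa using h) (by cases b <;> simpa)))
      (by
        cases b
        · exact Or.inr fun x hx => by simpa using hX x hx
        · exact Or.inl fun x hx => by simpa using hX x hx)
    obtain ⟨ρ, hρ⟩ := initSeg_append X (Nat.le_add_left n u)
    have h3 := hV.2 _ _ ρ _ hn
    have h4 : initSeg X (u + n) = h ++ (List.range n).map fun x => decide (u + x ∈ X) := by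
      rw [initSeg, List.range_add, List.map_append, List.map_map]
      refine congrArg₂ _ ?_ (List.map_congr_left fun x _ => decide_eq_decide.2 Iff.rfl)
      refine List.ext_getElem (by simp [hl]) fun x hx hx' => ?_
      have h5 : x ∈ X ↔ h[x] = true := by
        simp only [X, Set.mem_union, Set.mem_ofPred_eq, Set.mem_image, List.getD_eq_getElem _ _ hx']
        exact ⟨fun h6 => h6.elim (fun h7 => h7.2) fun ⟨y, _, h7⟩ => by omega,
          fun h6 => Or.inl ⟨by omega, h6⟩⟩
      simp [h5]
    rw [← hρ, h4] at h3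
    obtain ⟨t₀, ht₀⟩ := (hv _ _).1 h3
    filter_upwards [eventually_ge_atTop (max t₀ (max n (encode p + 1)))] with t ht _
    refine ⟨n, by simp; omega, (List.range n).map fun x => decide (u + x ∈ X), by simp,
      fun x hx hx' => ?_, encode p, by simp; omega, ?_, ?_⟩
    · have hxn : x < n := by simpa using hx
      have h5 : u + x ∈ X := by simpa [List.getD_eq_getElem?_getD, hxn] using hx'
      have h6 : x < t := by omega
      rcases h5 with h5 | ⟨y, hy, h5⟩
      · exact absurd h5.1 (by omega)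
      · obtain rfl : y = x := by simpa using h5
        simpa [List.getD_eq_getElem?_getD, h6] using hy.1
    · rw [dec_encode]
      exact Nat.pow_le_pow_right (by norm_num) (by omega)
    · rw [dec_encode]
      exact run_mono _ _ (by simp; omega) ht₀).exists
  exact hβ t ⟨z, hz, ht⟩

include hV hv in
lemma chain {ℓ : ℕ} {σ B z : ℕ → List Bool} {t : ℕ → ℕ} {b : Bool}
    (hu : ∀ i j, i < j → (B i).length + t i ≤ (B j).length) (l : List ℕ)
    (hz : ∀ j ∈ l, j < 2 ^ ℓ ∧ ∀ h ∈ bits (B j).length, Mono false h (B j) b →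
      Grows v ℓ (σ j) h ((List.range (t j)).map fun x => (List.range (2 ^ ℓ)).map fun j' =>
        (B j').getD ((B j).length + x) false) (z j))
    (hl : l.Pairwise fun i j => i < j ∧ (z i).getD j false = b) :
    ∀ h : List Bool, (∀ j ∈ l, h.length ≤ (B j).length ∧ Mono false h (B j) b) →
      ∃ τ, h <+: τ ∧ ∀ j ∈ l, ∃ p : List Bool, 2 ^ (p.length + 2) ≤ ℓ ∧ σ j ∈ V (p, τ) := by
  induction l with
  | nil => exact fun h _ => ⟨h, List.prefix_rfl, by simp⟩
  | cons j l ih =>
    intro h hh
    rw [List.forall_mem_cons] at hz hh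
    rw [List.pairwise_cons] at hl
    have hpad : ∀ x, (h ++ List.replicate ((B j).length - h.length) false).getD x false = true →
        x < h.length ∧ h.getD x false = true := fun x hx => by
      by_cases h1 : x < h.length
      · exact ⟨h1, by rwa [List.getD_append _ _ _ _ h1] at hx⟩
      · rw [List.getD_append_right _ _ _ _ (not_lt.1 h1), List.getD_eq_getElem?_getD,
          List.getElem?_replicate] at hx
        split_ifs at hx <;> simp at hx
    have hlen : (h ++ List.replicate ((B j).length - h.length) false).length = (B j).length := by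
      have := hh.1.1
      simp
      omega
    obtain ⟨n, hn, F, hF, h1, e, -, h2, h3⟩ := hz.1.2 _ ((mem_bits _ _).2 hlen)
      fun x _ hx => hh.1.2 x (hpad x hx).1 (hpad x hx).2
    simp only [List.length_map, List.length_range, mem_bits] at hn hF
    obtain ⟨τ, ⟨ρ, hρ⟩, h4⟩ := ih hz.2 hl.2
      (h ++ List.replicate ((B j).length - h.length) false ++ F) fun i hi => by
        have h5 := hu j i (hl.1 i hi).1
        refine ⟨by rw [List.length_append, hlen]; omega, fun x hx hx' => ?_⟩
        by_cases h6 : x < (B j).length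
        · rw [List.getD_append _ _ _ _ (by omega)] at hx'
          exact (hh.2 i hi).2 x (hpad x hx').1 (hpad x hx').2
        · rw [List.length_append, hlen] at hx
          rw [List.getD_append_right _ _ _ _ (by omega), hlen] at hx'
          have h7 := h1 _ (by omega) hx'
          have h8 : x - (B j).length < t j := by omega
          rw [← (hl.1 i hi).2, ← h7]
          simp [List.getD_eq_getElem?_getD, h8, (hz.2 i hi).1, Nat.add_sub_cancel' (not_lt.1 h6)]
    refine ⟨τ, ⟨_, by rw [← hρ, List.append_assoc, List.append_assoc]⟩,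
      List.forall_mem_cons.2 ⟨⟨dec e, h2, ?_⟩, h4⟩⟩
    rw [← hρ]
    exact hV.2 _ _ _ _ ((hv _ _).2 ⟨_, h3⟩)

include hV hv in
lemma no_long {a : ℕ} {σ B : ℕ → List Bool} {t : ℕ → ℕ}
    (hu : ∀ i j, i < j → (B i).length + t i ≤ (B j).length)
    (hσ : ∀ i j, i < j → j < 2 ^ 2 ^ (a + 2) → σ i ≠ σ j)
    (hc : ∀ j < 2 ^ 2 ^ (a + 2), ∀ w ∈ words (bits (2 ^ 2 ^ (a + 2))) (t j),
      Fine v (2 ^ (a + 2)) (σ j) (B j) w) : False := by
  classical
  have h1 := fun j hj => hc j hj ((List.range (t j)).map fun x =>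
    (List.range (2 ^ 2 ^ (a + 2))).map fun j' => (B j').getD ((B j).length + x) false)
    ((mem_words _ _ _).2 ⟨by simp, by simp⟩)
  choose! z hz hz' using h1
  obtain ⟨b, l, h2, h3, h4⟩ := ramsey_upper (fun i j => (z i).getD j false) (2 ^ (a + 2))
    (fun _ => 2 ^ (a + 1)) (Finset.range (2 ^ 2 ^ (a + 2))) (by ring) (by simp)
  simp only [Finset.mem_range] at h3
  obtain ⟨τ, -, h5⟩ := chain hV hv hu l
    (fun j hj => ⟨h3 j hj, fun h hh => hz' j (h3 j hj) h hh b (by cases b <;> simp)⟩) h4 []
    fun j _ => ⟨by simp, fun x hx => by simp at hx⟩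
  choose! p hp hp' using h5
  obtain ⟨S, hS, hS'⟩ := card_short (a + 1)
  have h6 : l.toFinset.card ≤ S.card := by
    refine Finset.card_le_card_of_injOn p (fun j hj => hS' _ ?_) fun i hi j hj e => ?_
    · have := (Nat.pow_le_pow_iff_right (by norm_num)).1 (hp j (by simpa using hj))
      omega
    · have hi' : i ∈ l := by simpa using hi
      have hj' : j ∈ l := by simpa using hj
      have h7 : σ i = σ j := Part.mem_unique (hp' i hi') (e ▸ hp' j hj')
      rcases lt_trichotomy i j with h | h | h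
      · exact absurd h7 (hσ i j h (h3 j hj'))
      · exact h
      · exact absurd h7.symm (hσ j i h (h3 i hi'))
  rw [List.toFinset_card_of_nodup (h4.imp fun h => h.1.ne), h2] at h6
  omega

include hV in
lemma lower_computable {U : List Bool × ℕ →. List Bool} (hU : CondOptimal U) {X : Set ℕ}
    {g : ℕ → Bool} (hg : Computable g) (hX : ∀ x, g x = true ↔ x ∈ X) :
    ∃ c : ℕ, ∀ σ n, condC U σ n ≤ oracleC V X σ + c := by
  obtain ⟨v, hv⟩ := exists_run hV.1
  let seg : ℕ → List Bool := fun t => Nat.rec [] (fun x s => s ++ [g x]) t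
  have h1 : Computable seg := Computable.nat_rec Computable.id (Computable.const [])
    (Computable.list_concat.comp (Computable.snd.comp Computable.snd)
      (hg.comp (Computable.fst.comp Computable.snd))).to₂
  have h2 : ∀ t, seg t = initSeg X t := fun t => by
    induction t with
    | zero => rfl
    | succ t ih =>
      have e : seg (t + 1) = seg t ++ [g t] := rfl
      rw [e, ih, initSeg, initSeg, List.range_succ, List.map_append]
      simp [← hX]
  have h3 : Computable fun y : (List Bool × ℕ) × ℕ =>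
      run v (y.1.1, seg y.2.unpair.1) y.2.unpair.2 := by
    have h4 := run_primrec.to_comp.comp ((Computable.const v).pair
      (((Computable.fst.comp (Computable.fst (α := List Bool × ℕ) (β := ℕ))).pair
        (h1.comp (Computable.fst.comp (Computable.unpair.comp Computable.snd)))).pair
        (Computable.snd.comp (Computable.unpair.comp Computable.snd))))
    exact h4.of_eq fun y => by simp only
  obtain ⟨c, hc⟩ := hU.2 _ (Partrec.rfindOpt h3.to₂)
  refine ⟨c, fun σ n => (hc σ n).trans (add_le_add_left (le_iInf₂ fun p ⟨l, hl⟩ =>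
    iInf₂_le_of_le p ?_ le_rfl) _)⟩
  obtain ⟨t, ht⟩ := (hv _ _).1 hl
  obtain ⟨σ', hσ'⟩ := Part.dom_iff_mem.1 ((Nat.rfindOpt_dom (f := fun j : ℕ =>
    run v (p, seg j.unpair.1) j.unpair.2)).2 ⟨Nat.pair l t, σ, by simpa [h2] using ht⟩)
  obtain ⟨j, hj⟩ := Nat.rfindOpt_spec hσ'
  rw [h2] at hj
  obtain ⟨ρ1, e1⟩ := initSeg_append X (le_max_left l j.unpair.1)
  obtain ⟨ρ2, e2⟩ := initSeg_append X (le_max_right l j.unpair.1)
  have h5 := hV.2 _ _ ρ1 _ hl
  have h6 := hV.2 _ _ ρ2 _ ((hv _ _).2 ⟨_, hj⟩)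
  rw [← e1] at h5
  rw [← e2] at h6
  rwa [Part.mem_unique h5 h6]

include hV in
lemma lower_noncomputable {U : List Bool × ℕ →. List Bool} (hU : CondOptimal U) :
    ∃ c : ℕ, ∀ A : Set ℕ,
      (¬ ∃ (f : ℕ → Bool) (n : ℕ), Computable f ∧ ∀ x, n ≤ x → (f x = true ↔ x ∈ A)) →
      ∀ (σ : List Bool) (a : ℕ), (∀ X : Set ℕ, X.Infinite → (X ⊆ A ∨ X ⊆ Aᶜ) →
        ∃ p : List Bool, p.length ≤ a ∧ ∃ n, σ ∈ V (p, initSeg X n)) →
      ∀ n, condC U σ n ≤ (2 ^ (a + 2) : ℕ) + c := by
  classical
  obtain ⟨v, hv⟩ := exists_run hV.1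
  obtain ⟨f, hf, hf1, hf2⟩ := exists_search
    (R := fun (x : ℕ × ℕ × List (List Bool)) (y : List Bool × List Bool × ℕ) =>
      (¬ y.1 ∈ x.2.2 ∧ y.2.1.length = x.2.1) ∧
        ∀ w ∈ words (bits (2 ^ x.1)) y.2.2, Fine v x.1 y.1 y.2.1 w)
    (PrimrecPred.and (PrimrecPred.and (PrimrecPred.not (pmem (Primrec.fst.comp Primrec.snd)
      (Primrec.snd.comp (Primrec.snd.comp Primrec.fst)))) (Primrec.eq.comp
        (Primrec.list_length.comp (Primrec.fst.comp (Primrec.snd.comp Primrec.snd)))
        (Primrec.fst.comp (Primrec.snd.comp Primrec.fst))))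
      (pall (words_primrec.comp (bits_primrec.comp (ptwo_pow.comp (Primrec.fst.comp Primrec.fst)))
        (Primrec.snd.comp (Primrec.snd.comp Primrec.snd)))
        ((fine_primrec v).comp (((Primrec.fst.comp (Primrec.fst.comp Primrec.fst)).pair
          (Primrec.fst.comp (Primrec.snd.comp Primrec.fst))).pair
          ((Primrec.fst.comp (Primrec.snd.comp (Primrec.snd.comp Primrec.fst))).pair
            Primrec.snd)))))
  let G : List Bool × ℕ →. ℕ × List (List Bool) := fun q => Nat.rec (Part.some (0, []))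
    (fun _ s => s.bind fun s => (f (q.1.length, s)).map fun y => (s.1 + y.2.2, y.1 :: s.2)) q.2
  have hG : Partrec G := by
    have k1 : Primrec fun y : (List Bool × ℕ) × ℕ × ℕ × List (List Bool) =>
        (y.1.1.length, y.2.2) :=
      (Primrec.list_length.comp (Primrec.fst.comp Primrec.fst)).pair (Primrec.snd.comp Primrec.snd)
    have k2 : Primrec fun y : ((List Bool × ℕ) × ℕ × ℕ × List (List Bool)) ×
        List Bool × List Bool × ℕ => (y.1.2.2.1 + y.2.2.2, y.2.1 :: y.1.2.2.2) :=
      (Primrec.nat_add.comp (Primrec.fst.comp (Primrec.snd.comp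
        (Primrec.snd.comp Primrec.fst))) (Primrec.snd.comp (Primrec.snd.comp Primrec.snd))).pair
        (Primrec.list_cons.comp (Primrec.fst.comp Primrec.snd)
          (Primrec.snd.comp (Primrec.snd.comp (Primrec.snd.comp Primrec.fst))))
    have k3 := (hf.comp k1.to_comp).map k2.to_comp.to₂
    have k4 : Partrec₂ fun (q : List Bool × ℕ) (z : ℕ × ℕ × List (List Bool)) =>
        (f (q.1.length, z.2)).map fun y => (z.2.1 + y.2.2, y.1 :: z.2.2) :=
      k3.of_eq fun y => by simp only
    have k5 := Partrec.nat_rec Computable.snd (Computable.const (0, [])).partrec k4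
    exact k5.of_eq fun q => rfl
  obtain ⟨c, hc⟩ := hU.2 (fun q => (G (q.1, val q.1 + 1)).map fun s => s.2.headI)
    (Partrec.map (hG.comp (Primrec.fst.pair (Primrec.succ.comp
      (val_primrec.comp Primrec.fst))).to_comp)
      (Primrec.list_headI.comp (Primrec.snd.comp Primrec.snd)).to_comp.to₂)
  refine ⟨c, fun A hA σ a hσ n => (hc σ n).trans (add_le_add_left ?_ _)⟩
  let pk : ℕ × List (List Bool) → List Bool × List Bool × ℕ :=
    fun s => (f (2 ^ (a + 2), s)).getOrElse ([], [], 0)
  let st : ℕ → ℕ × List (List Bool) :=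
    fun j => Nat.rec (0, []) (fun _ s => (s.1 + (pk s).2.2, (pk s).1 :: s.2)) j
  have hst : ∀ j, st (j + 1) = ((st j).1 + (pk (st j)).2.2, (pk (st j)).1 :: (st j).2) :=
    fun j => rfl
  have h1 : ∀ s : ℕ × List (List Bool), σ ∉ s.2 → pk s ∈ f (2 ^ (a + 2), s) := fun s hs => by
    obtain ⟨t, ht⟩ := exists_cert hV hv hA hσ s.1
    have h := hf2 (2 ^ (a + 2), s) ⟨(σ, initSeg A s.1, t), ⟨hs, by simp⟩, ht⟩
    simp only [pk, Part.getOrElse, dif_pos h]
    exact Part.get_mem h
  have h2 : ∀ j, (∀ i < j, (pk (st i)).1 ≠ σ) → σ ∉ (st j).2 ∧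
      ∀ q : List Bool, q.length = 2 ^ (a + 2) → st j ∈ G (q, j) := fun j => by
    induction j with
    | zero => exact fun _ => ⟨by simp [st], fun q _ => Part.mem_some _⟩
    | succ j ih =>
      intro h
      obtain ⟨h3, h4⟩ := ih fun i hi => h i (by omega)
      refine ⟨by rw [hst]; simpa [h3] using (h j (by omega)).symm, fun q hq => ?_⟩
      exact Part.mem_bind (h4 q hq) (Part.mem_map _ (hq ▸ h1 _ h3))
  have h3 : ∃ j, j < 2 ^ 2 ^ (a + 2) ∧ (pk (st j)).1 = σ := by
    by_contra h
    push Not at h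
    have h4 := fun j (hj : j < 2 ^ 2 ^ (a + 2)) =>
      hf1 _ _ (h1 _ (h2 j fun i hi => h i (hi.trans hj)).1)
    have h5 : ∀ i j, i < j → (st i).1 + (pk (st i)).2.2 ≤ (st j).1 ∧ (pk (st i)).1 ∈ (st j).2 := by
      intro i j hij
      induction j, hij using Nat.le_induction with
      | base => rw [hst]; simp
      | succ j _ ih => rw [hst]; exact ⟨by simp only; omega, List.mem_cons_of_mem _ ih.2⟩
    refine no_long hV hv (a := a) (σ := fun j => (pk (st j)).1) (t := fun j => (pk (st j)).2.2)
      (B := fun j => if j < 2 ^ 2 ^ (a + 2) then (pk (st j)).2.1 else initSeg A (st j).1)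
      (fun i j hij => ?_) (fun i j hij hj e => (h4 j hj).1.1 (e ▸ (h5 i j hij).2))
      fun j hj => by simpa [hj] using (h4 j hj).2
    have h6 : ∀ j, (if j < 2 ^ 2 ^ (a + 2) then (pk (st j)).2.1 else initSeg A (st j).1).length =
        (st j).1 := fun j => by
      split_ifs with hj
      · exact (h4 j hj).1.2
      · simp
    rw [h6, h6]
    exact (h5 i j hij).1
  obtain ⟨q, hq, hq'⟩ := exists_val _ _ (Nat.find_spec h3).1
  refine iInf₂_le_of_le q ?_ (by rw [hq])
  have h4 := h2 (Nat.find h3) fun i hi e =>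
    Nat.find_min h3 hi ⟨hi.trans (Nat.find_spec h3).1, e⟩
  change σ ∈ (G (q, val q + 1)).map fun s => s.2.headI
  have h5 : pk (st (Nat.find h3)) ∈ f (q.length, st (Nat.find h3)) := by
    rw [hq]
    exact h1 _ h4.1
  rw [← (Nat.find_spec h3).2, hq']
  exact Part.mem_map (fun s : ℕ × List (List Bool) => s.2.headI)
    (a := st (Nat.find h3 + 1))
    (Part.mem_bind (h4.2 q hq) (Part.mem_map _ h5))

end Main

theorem main_lower {U : List Bool × ℕ →. List Bool} (hU : CondOptimal U)
    {V : List Bool × List Bool →. List Bool} (hV : IsOracleMachine V) (A : Set ℕ) :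
    ∃ c : ℕ, ∀ (σ : List Bool) (a : ℕ),
      (⨆ (X : Set ℕ) (_ : X.Infinite ∧ (X ⊆ A ∨ X ⊆ Aᶜ)), oracleC V X σ) ≤ a →
        (⨆ n : ℕ, condC U σ n) ≤ 2 ^ (a + c) := by
  by_cases hA : ∃ (f : ℕ → Bool) (n : ℕ), Computable f ∧ ∀ x, n ≤ x → (f x = true ↔ x ∈ A)
  · obtain ⟨f, n, hf, hf'⟩ := hA
    obtain ⟨b, hb⟩ : ∃ b, {x | n ≤ x ∧ f x = b}.Infinite := by
      by_contra h
      push Not at h
      refine Set.Ici_infinite n (((h true).union (h false)).subset fun x hx => ?_)
      cases h : f x <;> simpa [h] using hx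
    obtain ⟨c, hc⟩ := lower_computable hV hU (X := {x | n ≤ x ∧ f x = b})
      (g := fun x => decide (n ≤ x) && (f x == b))
      (Primrec.and.to_comp.comp (Primrec.nat_le.decide.comp (Primrec.const n) Primrec.id).to_comp
        (Primrec.beq.to_comp.comp hf (Computable.const b))) (by simp)
    refine ⟨c, fun σ a h => iSup_le fun m => (hc σ m).trans ?_⟩
    have h1 := (le_iSup₂_of_le (f := fun (X : Set ℕ) (_ : X.Infinite ∧ (X ⊆ A ∨ X ⊆ Aᶜ)) =>
      oracleC V X σ) _ ⟨hb, by
        cases b
        · exact Or.inr fun x hx h => by simpa [hx.2] using (hf' x hx.1).2 h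
        · exact Or.inl fun x hx => (hf' x hx.1).1 hx.2⟩ le_rfl).trans h
    exact (add_le_add_left h1 _).trans (by exact_mod_cast Nat.lt_two_pow_self.le)
  · obtain ⟨c, hc⟩ := lower_noncomputable hV hU
    refine ⟨2 + c, fun σ a h => iSup_le fun m => (hc A hA σ a (fun X h1 h2 => ?_) m).trans ?_⟩
    · have h3 := (le_iSup₂_of_le (f := fun (X : Set ℕ) (_ : X.Infinite ∧ (X ⊆ A ∨ X ⊆ Aᶜ)) =>
        oracleC V X σ) X ⟨h1, h2⟩ le_rfl).trans h
      by_contra h4
      push Not at h4
      have h5 : ((a + 1 : ℕ) : ℕ∞) ≤ oracleC V X σ := le_iInf₂ fun p ⟨n, hn⟩ => by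
        by_contra h6
        exact h4 p (by have : p.length < a + 1 := by exact_mod_cast not_le.1 h6
                       omega) n hn
      have : a + 1 ≤ a := by exact_mod_cast h5.trans h3
      omega
    · have h1 : c < 2 ^ c := Nat.lt_two_pow_self
      have h2 : 0 < 2 ^ (a + 2) := by positivity
      have h3 : 2 ^ (a + 2) + c ≤ 2 ^ (a + (2 + c)) := by
        rw [← add_assoc, pow_add _ (a + 2)]
        nlinarith
      exact_mod_cast h3

end Pool.Agent.Lib.MP_7b562e_lc
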