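import Pool.Agent.Lib.MP_7b562e_lc.Main

/-! Words over a list, bounded quantifiers, computable search, two Ramsey bounds. -/

namespace Pool.Agent.Lib.MP_7b562e_lc

open Encodable Nat.Partrec

section Prim

variable {α β : Type} [Primcodable α] [Primcodable β]

lemma pall {l : α → List β} {p : α → β → Prop} (hl : Primrec l)
    (hp : PrimrecPred fun x : α × β => p x.1 x.2) : PrimrecPred fun a => ∀ b ∈ l a, p a b :=
  (PrimrecRel.forall_mem_list (R := fun b a => p a b)
    (hp.comp (Primrec.snd.pair Primrec.fst))).comp hl Primrec.id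

lemma pex {l : α → List β} {p : α → β → Prop} (hl : Primrec l)
    (hp : PrimrecPred fun x : α × β => p x.1 x.2) : PrimrecPred fun a => ∃ b ∈ l a, p a b :=
  (PrimrecRel.exists_mem_list (R := fun b a => p a b)
    (hp.comp (Primrec.snd.pair Primrec.fst))).comp hl Primrec.id

lemma pall_lt {n : α → ℕ} {p : α → ℕ → Prop} (hn : Primrec n)
    (hp : PrimrecPred fun x : α × ℕ => p x.1 x.2) : PrimrecPred fun a => ∀ b < n a, p a b :=
  (pall (Primrec.list_range.comp hn) hp).of_eq (by simp)

lemma pex_lt {n : α → ℕ} {p : α → ℕ → Prop} (hn : Primrec n)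
    (hp : PrimrecPred fun x : α × ℕ => p x.1 x.2) : PrimrecPred fun a => ∃ b < n a, p a b :=
  (pex (Primrec.list_range.comp hn) hp).of_eq (by simp)

lemma pimp {p q : α → Prop} (hp : PrimrecPred p) (hq : PrimrecPred q) :
    PrimrecPred fun a => p a → q a := (hp.not.or hq).of_eq fun a => by tauto

lemma piff {p q : α → Prop} (hp : PrimrecPred p) (hq : PrimrecPred q) :
    PrimrecPred fun a => p a ↔ q a := ((pimp hp hq).and (pimp hq hp)).of_eq fun a => by tauto

lemma pmem {f : α → β} {l : α → List β} (hf : Primrec f) (hl : Primrec l) :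
    PrimrecPred fun a => f a ∈ l a :=
  (pex (p := fun a b => b = f a) hl
    (Primrec.eq.comp Primrec.snd (hf.comp Primrec.fst))).of_eq (by simp)

lemma pnodup : PrimrecPred (List.Nodup : List β → Prop) := by
  have h : PrimrecPred fun l : List β => ∀ j < l.length, ∀ i < j, ¬ l[i]? = l[j]? :=
    pall_lt Primrec.list_length (pall_lt Primrec.snd (PrimrecPred.not (Primrec.eq.comp
      (Primrec.list_getElem?.comp (Primrec.fst.comp Primrec.fst) Primrec.snd)
      (Primrec.list_getElem?.comp (Primrec.fst.comp Primrec.fst)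
        (Primrec.snd.comp Primrec.fst)))))
  refine h.of_eq fun l => ?_
  rw [List.nodup_iff_getElem?_ne_getElem?]
  exact ⟨fun h i j h1 h2 => h j h2 i h1, fun h j h2 i h1 => h i j h1 h2⟩

lemma ptwo_pow : Primrec fun n : ℕ => 2 ^ n :=
  (Primrec₂.unpaired'.1 Nat.Primrec.pow).comp (Primrec.const 2) Primrec.id

lemma exists_search {R : α → β → Prop} (hR : PrimrecPred fun x : α × β => R x.1 x.2) :
    ∃ f : α →. β, Partrec f ∧ (∀ a, ∀ b ∈ f a, R a b) ∧ ∀ a, (∃ b, R a b) → (f a).Dom := by
  classical
  refine ⟨fun a => Nat.rfindOpt fun e => (decode (α := β) e).bind fun b =>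
    if R a b then some b else Option.none, Partrec.rfindOpt (Primrec₂.to_comp ?_), ?_, ?_⟩
  · exact Primrec.option_bind (Primrec.decode.comp Primrec.snd)
      (Primrec.ite (hR.comp ((Primrec.fst.comp Primrec.fst).pair Primrec.snd))
        (Primrec.option_some.comp Primrec.snd) (Primrec.const _)).to₂
  · intro a b hb
    obtain ⟨e, he⟩ := Nat.rfindOpt_spec hb
    rw [Option.mem_def, Option.bind_eq_some_iff] at he
    obtain ⟨b', -, h⟩ := he
    split_ifs at h with h1
    cases h
    exact h1
  · rintro a ⟨b, hb⟩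
    rw [Nat.rfindOpt_dom]
    exact ⟨encode b, b, by simp [hb]⟩

lemma exists_choice {R : α → β → Prop} (hR : PrimrecPred fun x : α × β => R x.1 x.2)
    (h : ∀ a, ∃ b, R a b) : ∃ f : α → β, Computable f ∧ ∀ a, R a (f a) := by
  obtain ⟨f, h1, h2, h3⟩ := exists_search hR
  exact ⟨fun a => (f a).get (h3 a (h a)), h1.of_eq_tot fun a => Part.get_mem _,
    fun a => h2 a _ (Part.get_mem _)⟩

end Prim

/-- All words of length `n` over the letters of `l`. -/
def words {α : Type} (l : List α) (n : ℕ) : List (List α) :=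
  Nat.rec [[]] (fun _ L => L.flatMap fun w => l.map fun x => x :: w) n

lemma mem_words {α : Type} (l : List α) (n : ℕ) (w : List α) :
    w ∈ words l n ↔ w.length = n ∧ ∀ x ∈ w, x ∈ l := by
  induction n generalizing w with
  | zero => cases w <;> simp [words]
  | succ n ih =>
    have e : words l (n + 1) = (words l n).flatMap fun w => l.map fun x => x :: w := rfl
    rw [e]
    cases w with
    | nil => simp
    | cons a w =>
      simp only [List.mem_flatMap, List.mem_map, List.cons.injEq, ih, List.length_cons,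
        Nat.add_right_cancel_iff, List.forall_mem_cons]
      exact ⟨fun ⟨_, h1, _, h2, h3, h4⟩ => by subst h3 h4; exact ⟨h1.1, h2, h1.2⟩,
        fun ⟨h1, h2, h3⟩ => ⟨w, ⟨h1, h3⟩, a, h2, rfl, rfl⟩⟩

lemma length_words {α : Type} (l : List α) (n : ℕ) : (words l n).length = l.length ^ n := by
  induction n with
  | zero => simp [words]
  | succ n ih =>
    have e : words l (n + 1) = (words l n).flatMap fun w => l.map fun x => x :: w := rfl
    simp [e, List.length_flatMap, ih, pow_succ]

lemma words_primrec {α : Type} [Primcodable α] : Primrec₂ (words : List α → ℕ → _) :=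
  Primrec.nat_rec (f := fun _ : List α => [[]])
    (g := fun l (y : ℕ × List (List α)) => y.2.flatMap fun w => l.map fun x => x :: w)
    (Primrec.const _) (Primrec.list_flatMap (Primrec.snd.comp Primrec.snd)
      (Primrec.list_map (Primrec.fst.comp Primrec.fst)
        (Primrec.list_cons.comp Primrec.snd (Primrec.snd.comp Primrec.fst)).to₂).to₂).to₂

/-- All strings of length `n`. -/
def bits (n : ℕ) : List (List Bool) := words [false, true] n

@[simp] lemma mem_bits (n : ℕ) (w : List Bool) : w ∈ bits n ↔ w.length = n := by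
  simp [bits, mem_words]

lemma bits_primrec : Primrec bits := words_primrec.comp (Primrec.const _) Primrec.id

/-- The number with binary digits `q`. -/
def val (q : List Bool) : ℕ := q.foldr (fun b n => 2 * n + cond b 1 0) 0

lemma val_primrec : Primrec val :=
  Primrec.list_foldr (h := fun _ (y : Bool × ℕ) => 2 * y.2 + cond y.1 1 0) Primrec.id
    (Primrec.const 0) (Primrec.nat_add.comp (Primrec.nat_double.comp
      (Primrec.snd.comp Primrec.snd)) (Primrec.cond (Primrec.fst.comp Primrec.snd)
        (Primrec.const 1) (Primrec.const 0))).to₂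

lemma exists_val (n j : ℕ) (h : j < 2 ^ n) : ∃ q : List Bool, q.length = n ∧ val q = j := by
  induction n generalizing j with
  | zero => exact ⟨[], rfl, by simp [val]; omega⟩
  | succ n ih =>
    obtain ⟨q, h1, h2⟩ := ih (j / 2) (by rw [pow_succ] at h; omega)
    refine ⟨decide (j % 2 = 1) :: q, by simp [h1], ?_⟩
    have e : ∀ b, val (b :: q) = 2 * val q + cond b 1 0 := fun b => rfl
    rw [e, h2]
    rcases Nat.mod_two_eq_zero_or_one j with h3 | h3 <;> simp [h3] <;> omega

lemma ramsey_upper (χ : ℕ → ℕ → Bool) (n : ℕ) : ∀ (k : Bool → ℕ) (I : Finset ℕ),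
    k false + k true = n → 2 ^ n ≤ I.card → ∃ (b : Bool) (l : List ℕ), l.length = k b ∧
      (∀ j ∈ l, j ∈ I) ∧ l.Pairwise fun i j => i < j ∧ χ i j = b := by
  induction n with
  | zero => exact fun k I hk _ => ⟨false, [], by simp; omega, by simp, by simp⟩
  | succ n ih =>
    intro k I hk hI
    by_cases h0 : ∃ b, k b = 0
    · obtain ⟨b, hb⟩ := h0
      exact ⟨b, [], by simp [hb], by simp, by simp⟩
    push Not at h0
    have hne : I.Nonempty := Finset.card_pos.1 (lt_of_lt_of_le (by positivity) hI)
    obtain ⟨b, hb⟩ : ∃ b, 2 ^ n ≤ ((I.erase (I.min' hne)).filter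
        fun j => χ (I.min' hne) j = b).card := by
      have h1 := Finset.card_filter_add_card_filter_not (s := I.erase (I.min' hne))
        (fun j => χ (I.min' hne) j = true)
      rw [Finset.card_erase_of_mem (I.min'_mem hne)] at h1
      simp only [Bool.not_eq_true] at h1
      by_contra h
      push Not at h
      have h2 := h true
      have h3 := h false
      rw [pow_succ] at hI
      omega
    obtain ⟨b', l, h1, h2, h3⟩ := ih (Function.update k b (k b - 1)) _ (by
      have := h0 b
      cases b <;> simp <;> omega) hb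
    simp only [Finset.mem_filter, Finset.mem_erase] at h2
    by_cases hbb : b' = b
    · subst hbb
      refine ⟨b', I.min' hne :: l, ?_, ?_, List.pairwise_cons.2 ⟨fun j hj => ⟨?_, (h2 j hj).2⟩, h3⟩⟩
      · have := h0 b'
        simp [h1]
        omega
      · exact List.forall_mem_cons.2 ⟨I.min'_mem hne, fun j hj => (h2 j hj).1.2⟩
      · exact lt_of_le_of_ne (I.min'_le j (h2 j hj).1.2) (h2 j hj).1.1.symm
    · exact ⟨b', l, by simp [h1, hbb], fun j hj => (h2 j hj).1.2, h3⟩

lemma ramsey_lower {α : Type} [DecidableEq α] (B : Finset α) (k : ℕ)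
    (hk : 2 * (B.card ^ k * B.card ^ k) < 2 ^ (k * k)) :
    ∃ L : Finset (α × α), ∀ S ⊆ B, ∀ T ⊆ B, S.card = k → T.card = k → ∀ b : Bool,
      ∃ u ∈ S, ∃ v ∈ T, ¬ ((u, v) ∈ L ↔ b = true) := by
  by_contra h
  push Not at h
  let I := (Finset.univ : Finset Bool) ×ˢ (B.powersetCard k ×ˢ B.powersetCard k)
  let bad : Bool × Finset α × Finset α → Finset (Finset (α × α)) := fun y =>
    (B ×ˢ B).powerset.filter fun L => ∀ u ∈ y.2.1, ∀ v ∈ y.2.2, ((u, v) ∈ L ↔ y.1 = true)
  have h1 : (B ×ˢ B).powerset ⊆ I.biUnion bad := fun L hL => by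
    obtain ⟨S, hS, T, hT, h2, h3, b, hb⟩ := h L
    exact Finset.mem_biUnion.2 ⟨(b, S, T), by simp [I, hS, hT, h2, h3],
      Finset.mem_filter.2 ⟨hL, hb⟩⟩
  have h2 : ∀ y ∈ I, (bad y).card * 2 ^ (k * k) ≤ 2 ^ (B ×ˢ B).card := by
    rintro ⟨b, S, T⟩ hy
    simp only [I, Finset.mem_product, Finset.mem_univ, Finset.mem_powersetCard, true_and] at hy
    have h3 : S ×ˢ T ⊆ B ×ˢ B := Finset.product_subset_product hy.1.1 hy.2.1
    have h4 : (bad (b, S, T)).card ≤ ((B ×ˢ B) \ (S ×ˢ T)).powerset.card := by
      refine Finset.card_le_card_of_injOn (fun L => L \ (S ×ˢ T)) (fun L hL => ?_)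
        fun L hL L' hL' e => ?_
      · exact Finset.mem_powerset.2 (Finset.sdiff_subset_sdiff
          (Finset.mem_powerset.1 (Finset.mem_filter.1 hL).1) le_rfl)
      · ext ⟨u, v⟩
        by_cases huv : (u, v) ∈ S ×ˢ T
        · rw [Finset.mem_product] at huv
          rw [(Finset.mem_filter.1 hL).2 u huv.1 v huv.2,
            (Finset.mem_filter.1 hL').2 u huv.1 v huv.2]
        · have := Finset.ext_iff.1 e (u, v)
          simpa only [Finset.mem_sdiff, huv, not_false_eq_true, and_true] using this
    have h5 := Finset.card_sdiff_add_card_eq_card h3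
    rw [Finset.card_product S, hy.1.2, hy.2.2] at h5
    rw [Finset.card_powerset] at h4
    rw [← h5, pow_add]
    exact Nat.mul_le_mul_right _ h4
  have h3 := (Finset.card_le_card h1).trans Finset.card_biUnion_le
  have h4 := Nat.mul_le_mul_right (2 ^ (k * k)) h3
  rw [Finset.card_powerset, Finset.sum_mul] at h4
  have h5 := h4.trans (Finset.sum_le_card_nsmul _ _ _ h2)
  have h6 : I.card ≤ 2 * (B.card ^ k * B.card ^ k) := by
    simp only [I, Finset.card_product, Finset.card_univ, Fintype.card_bool,
      Finset.card_powersetCard]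
    exact Nat.mul_le_mul_left _ (Nat.mul_le_mul (Nat.choose_le_pow _ _) (Nat.choose_le_pow _ _))
  rw [smul_eq_mul, mul_comm] at h5
  have := Nat.le_of_mul_le_mul_right h5 (by positivity)
  omega

end Pool.Agent.Lib.MP_7b562e_lc
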