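import Pool.Agent.Lib.MP_7b562e_lc.H47Tools

/-! Paths of a computable tree of colourings that split a noncomputable set. -/

namespace Pool.Agent.Lib.MP_7b562e_lc

open Encodable Filter

lemma eventually_list {α : Type} {P : α → ℕ → Prop} (l : List α)
    (h : ∀ a ∈ l, ∀ᶠ t in atTop, P a t) : ∀ᶠ t in atTop, ∀ a ∈ l, P a t := by
  induction l with
  | nil => simp
  | cons a l ih =>
    simp only [List.forall_mem_cons] at h ⊢
    exact h.1.and (ih h.2)

lemma ext_step {α : Type} {l : List α} {P Q : List α → Prop} (hd : ∀ w w', P (w ++ w') → P w)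
    (ρ : List α) (t₀ : ℕ) (h : ∀ t, ∃ w ∈ words l (t₀ + t), P (ρ ++ w) ∧ Q (w.take t₀)) :
    ∃ w₀ ∈ words l t₀, Q w₀ ∧ ∀ t, ∃ w ∈ words l t, P (ρ ++ w₀ ++ w) := by
  by_contra hc
  push Not at hc
  obtain ⟨t, ht⟩ := (eventually_list (P := fun w₀ t => Q w₀ → ∀ w ∈ words l t, ¬ P (ρ ++ w₀ ++ w))
    (words l t₀) fun w₀ hw₀ => by
      by_cases hQ : Q w₀
      · obtain ⟨t, ht⟩ := hc w₀ hw₀ hQ
        filter_upwards [eventually_ge_atTop t] with t' ht' _ w hw hP
        rw [mem_words] at hw
        refine ht (w.take t) ((mem_words _ _ _).2 ⟨by simp; omega,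
          fun x hx => hw.2 x (List.mem_of_mem_take hx)⟩) (hd _ (w.drop t) ?_)
        rwa [List.append_assoc, List.take_append_drop]
      · exact Eventually.of_forall fun _ h => absurd h hQ).exists
  obtain ⟨w, hw, h1, h2⟩ := h t
  rw [mem_words] at hw
  refine ht (w.take t₀) ((mem_words _ _ _).2 ⟨by simp; omega,
    fun x hx => hw.2 x (List.mem_of_mem_take hx)⟩) h2 (w.drop t₀)
    ((mem_words _ _ _).2 ⟨by simp; omega, fun x hx => hw.2 x (List.mem_of_mem_drop hx)⟩) ?_
  rwa [List.append_assoc, List.take_append_drop]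

lemma generic_path {α : Type} (d : α) (E : List α → Prop) (D : ℕ → List α → Prop) (h0 : E [])
    (hD : ∀ i ρ, E ρ → ∃ ρ', ρ <+: ρ' ∧ i < ρ'.length ∧ E ρ' ∧ D i ρ') :
    ∃ β : ℕ → α, ∀ i, ∃ n, i < n ∧ E ((List.range n).map β) ∧ D i ((List.range n).map β) := by
  choose! nx h1 h2 h3 h4 using hD
  let r : ℕ → List α := fun i => Nat.rec [] (fun i ρ => nx i ρ) i
  have hr : ∀ i, r (i + 1) = nx i (r i) := fun i => rfl
  have hE : ∀ i, E (r i) := fun i => by
    induction i with
    | zero => exact h0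
    | succ i ih => exact h3 i _ ih
  have hm : ∀ i j, i ≤ j → r i <+: r j := fun i j h => by
    induction j, h using Nat.le_induction with
    | base => exact List.prefix_rfl
    | succ j _ ih => exact ih.trans (h1 j _ (hE j))
  have hg : ∀ i j x, i ≤ j → x < (r i).length → (r j).getD x d = (r i).getD x d := by
    intro i j x h hx
    obtain ⟨s, hs⟩ := hm i j h
    rw [← hs, List.getD_append _ _ _ _ hx]
  have e : ∀ i, (List.range (r i).length).map (fun x => (r (x + 1)).getD x d) = r i := fun i => by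
    refine List.ext_getElem (by simp) fun x hx hx' => ?_
    rw [List.getElem_map, List.getElem_range, ← hg _ _ x (le_max_left (x + 1) i) (h2 x _ (hE x)),
      hg _ _ x (le_max_right (x + 1) i) hx', List.getD_eq_getElem _ _ hx']
  exact ⟨fun x => (r (x + 1)).getD x d, fun i => ⟨(r (i + 1)).length, h2 i _ (hE i),
    (e (i + 1)).symm ▸ hE (i + 1), (e (i + 1)).symm ▸ h4 i _ (hE i)⟩⟩

theorem tree_split {l : List (List Bool)} {P : List (List Bool) → Prop} (hP : PrimrecPred P)
    (hd : ∀ w w', P (w ++ w') → P w) (hinf : ∀ t, ∃ w ∈ words l t, P w) {A : Set ℕ}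
    (hA : ¬ ∃ (f : ℕ → Bool) (n : ℕ), Computable f ∧ ∀ x, n ≤ x → (f x = true ↔ x ∈ A)) :
    ∃ β : ℕ → List Bool, (∀ t, P ((List.range t).map β)) ∧
      ∃ z ∈ l, {x | β x = z ∧ x ∈ A}.Infinite ∧ {x | β x = z ∧ x ∉ A}.Infinite := by
  classical
  let rq : ℕ → List (List Bool) × ℕ := fun i => (decode i).getD ([], 0)
  obtain ⟨β, hβ⟩ := generic_path ([] : List Bool)
    (fun ρ => (∀ x ∈ ρ, x ∈ l) ∧ ∀ t, ∃ w ∈ words l t, P (ρ ++ w))
    (fun i ρ => ∃ x, (rq i).2 ≤ x ∧ x < ρ.length ∧ ¬ (ρ.getD x [] ∈ (rq i).1 ↔ x ∈ A))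
    ⟨by simp, by simpa using hinf⟩ (by
      intro i ρ hρ
      by_contra hc
      have key : ∀ x, (rq i).2 ≤ x → ∀ t, i < t → x < t → ∀ w ∈ words l t,
          (∀ t, ∃ w' ∈ words l t, P (ρ ++ w ++ w')) →
          ((ρ ++ w).getD x [] ∈ (rq i).1 ↔ x ∈ A) := by
        intro x hx t h1 h2 w hw h3
        rw [mem_words] at hw
        by_contra h4
        exact hc ⟨ρ ++ w, List.prefix_append _ _, by simp; omega,
          ⟨List.forall_mem_append.2 ⟨hρ.1, hw.2⟩, h3⟩, x, hx, by simp; omega, h4⟩
      obtain ⟨f, hf, hf'⟩ := exists_choice (R := fun (x : ℕ) (y : ℕ × Bool) =>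
        (rq i).2 ≤ x → (i < y.1 ∧ x < y.1) ∧ ∀ w ∈ words l y.1, P (ρ ++ w) →
          ((ρ ++ w).getD x [] ∈ (rq i).1 ↔ y.2 = true))
        (pimp (Primrec.nat_le.comp (Primrec.const _) Primrec.fst) (PrimrecPred.and
          ((Primrec.nat_lt.comp (Primrec.const _) (Primrec.fst.comp Primrec.snd)).and
            (Primrec.nat_lt.comp Primrec.fst (Primrec.fst.comp Primrec.snd)))
          (pall (words_primrec.comp (Primrec.const _) (Primrec.fst.comp Primrec.snd))
            (pimp (hP.comp (Primrec.list_append.comp (Primrec.const _) Primrec.snd))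
              (piff (pmem ((Primrec.list_getD []).comp
                (Primrec.list_append.comp (Primrec.const _) Primrec.snd)
                (Primrec.fst.comp Primrec.fst)) (Primrec.const _))
                (Primrec.eq.comp (Primrec.snd.comp (Primrec.snd.comp Primrec.fst))
                  (Primrec.const true)))))))
        (fun x => by
          by_contra h
          push Not at h
          obtain ⟨w, hw, h1, h2⟩ := ext_step (l := l)
            (Q := fun w => ¬ ((ρ ++ w).getD x [] ∈ (rq i).1 ↔ x ∈ A)) hd ρ (max i x + 1) fun t => by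
              obtain ⟨w, hw, h1, h2⟩ := (h (max i x + 1 + t, decide (x ∈ A))).2
                ⟨by simp only; omega, by simp only; omega⟩
              refine ⟨w, hw, h1, ?_⟩
              have h3 := ((mem_words _ _ _).1 hw).1
              have h4 : (ρ ++ w).getD x [] = (ρ ++ w.take (max i x + 1)).getD x [] := by
                conv_lhs => rw [← List.take_append_drop (max i x + 1) w, ← List.append_assoc]
                exact List.getD_append _ _ _ _ (by simp only at h3; simp; omega)
              rw [← h4]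
              simp only [decide_eq_true_eq, ne_eq] at h2
              tauto
          exact h1 (key x (h (0, true)).1 _ (by omega) (by omega) w hw h2))
      refine hA ⟨fun x => (f x).2, (rq i).2, Computable.snd.comp hf, fun x hx => ?_⟩
      obtain ⟨⟨h1, h2⟩, h3⟩ := hf' x hx
      obtain ⟨w, hw, -, h4⟩ := ext_step (l := l) (Q := fun _ => True) hd ρ (f x).1
        fun t => by simpa using hρ.2 _
      obtain ⟨w', -, h5⟩ := h4 0
      rw [← h3 w hw (hd _ _ h5), key x hx _ h1 h2 w hw h4])
  refine ⟨β, fun t => ?_, ?_⟩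
  · obtain ⟨n, hn, ⟨-, h⟩, -⟩ := hβ t
    obtain ⟨w, -, hw⟩ := h 0
    obtain ⟨k, rfl⟩ := Nat.exists_eq_add_of_le hn.le
    rw [List.range_add, List.map_append] at hw
    exact hd _ _ (hd _ _ hw)
  · by_contra hc
    push Not at hc
    obtain ⟨n, hn⟩ := eventually_atTop.1 (eventually_list (P := fun z x => β x = z →
        (z ∈ l.filter (fun z => {x | β x = z ∧ x ∈ A}.Infinite) ↔ x ∈ A)) l fun z hz => by
      rw [← Nat.cofinite_eq_atTop]
      by_cases h : {x | β x = z ∧ x ∈ A}.Infinite
      · refine (hc z hz h).subset fun x hx => ?_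
        simpa [hz, h] using hx
      · refine (Set.not_infinite.1 h).subset fun x hx => ?_
        simpa [hz, h] using hx)
    obtain ⟨t, -, ⟨h1, -⟩, x, h2, h3, h4⟩ :=
      hβ (encode (l.filter (fun z => {x | β x = z ∧ x ∈ A}.Infinite), n))
    simp only [rq, encodek, Option.getD_some, List.length_map, List.length_range] at h2 h3 h4
    have h5 : ((List.range t).map β).getD x [] = β x := by simp [List.getD_eq_getElem?_getD, h3]
    rw [h5] at h4
    exact h4 (hn x h2 (β x) (h1 _ (List.mem_map.2 ⟨x, List.mem_range.2 h3, rfl⟩)) rfl)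

end Pool.Agent.Lib.MP_7b562e_lc
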