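import Pool.Agent.Lib.MP_7b562e_lc.H47Tools

/-! A set all of whose homogeneous subsets compress some strings to logarithmic length. -/

namespace Pool.Agent.Lib.MP_7b562e_lc

open Encodable Nat.Partrec

/-- The table `L` has no long homogeneous sequence of strings of length `m`. -/
def Ram (m : ℕ) (L : List (List Bool × List Bool)) : Prop :=
  ∀ l ∈ words (bits m) (2 * (2 * m + 2)), l.Nodup → ∀ b ∈ [false, true],
    ∃ u ∈ l.take (2 * m + 2), ∃ v ∈ l.drop (2 * m + 2), ¬ ((u, v) ∈ L ↔ b = true)

lemma ram_primrec : PrimrecPred fun x : ℕ × List (List Bool × List Bool) => Ram x.1 x.2 := by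
  have hk : Primrec fun m : ℕ => 2 * m + 2 :=
    Primrec.nat_add.comp Primrec.nat_double (Primrec.const 2)
  refine pall (words_primrec.comp (bits_primrec.comp Primrec.fst)
    (Primrec.nat_double.comp (hk.comp Primrec.fst))) (pimp (pnodup.comp Primrec.snd)
      (pall (Primrec.const _) (pex (Primrec.list_take.comp
        (hk.comp (Primrec.fst.comp (Primrec.fst.comp Primrec.fst))) (Primrec.snd.comp Primrec.fst))
        (pex (Primrec.list_drop.comp
          (hk.comp (Primrec.fst.comp (Primrec.fst.comp (Primrec.fst.comp Primrec.fst))))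
          (Primrec.snd.comp (Primrec.fst.comp Primrec.fst))) (PrimrecPred.not (piff ?_ ?_))))))
  · exact pmem ((Primrec.snd.comp Primrec.fst).pair Primrec.snd)
      (Primrec.snd.comp (Primrec.fst.comp (Primrec.fst.comp (Primrec.fst.comp Primrec.fst))))
  · exact Primrec.eq.comp (Primrec.snd.comp (Primrec.fst.comp Primrec.fst)) (Primrec.const true)

lemma exists_ram (m : ℕ) : ∃ L, Ram m L := by
  have h1 : (bits m).toFinset.card ≤ 2 ^ m :=
    (List.toFinset_card_le _).trans (by simp [bits, length_words])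
  obtain ⟨L, hL⟩ := ramsey_lower (bits m).toFinset (2 * m + 2) (by
    calc _ ≤ 2 * ((2 ^ m) ^ (2 * m + 2) * (2 ^ m) ^ (2 * m + 2)) := by gcongr
      _ = 2 ^ (m * (2 * m + 2) + m * (2 * m + 2) + 1) := by ring
      _ < _ := Nat.pow_lt_pow_right (by norm_num) (by nlinarith))
  refine ⟨L.toList, fun l hl hn b _ => ?_⟩
  rw [mem_words] at hl
  obtain ⟨u, hu, v, hv, h⟩ := hL (l.take (2 * m + 2)).toFinset
    (fun x hx => List.mem_toFinset.2 (hl.2 x (List.mem_of_mem_take (List.mem_toFinset.1 hx))))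
    (l.drop (2 * m + 2)).toFinset
    (fun x hx => List.mem_toFinset.2 (hl.2 x (List.mem_of_mem_drop (List.mem_toFinset.1 hx))))
    (by rw [List.toFinset_card_of_nodup (hn.sublist (List.take_sublist _ _))]; simp; omega)
    (by rw [List.toFinset_card_of_nodup (hn.sublist (List.drop_sublist _ _))]; simp; omega) b
  exact ⟨u, List.mem_toFinset.1 hu, v, List.mem_toFinset.1 hv, by simpa using h⟩

/-- One step of the listing procedure. -/
def stp (b : Bool) (s : ℕ) (τ : List Bool) (L : List (List Bool × List Bool)) (w : List Bool)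
    (x : ℕ) (acc : List (List Bool)) : List (List Bool) :=
  if (s ≤ x ∧ τ.getD x false = true) ∧ ¬ w ∈ acc ∧ ∀ u ∈ acc, ((u, w) ∈ L ↔ b = true) then
    acc ++ [w] else acc

lemma stp_primrec : Primrec fun z : ((Bool × ℕ × List Bool) × List (List Bool × List Bool) ×
    List Bool) × ℕ × List (List Bool) =>
    stp z.1.1.1 z.1.1.2.1 z.1.1.2.2 z.1.2.1 z.1.2.2 z.2.1 z.2.2 := by
  unfold stp
  refine Primrec.ite (PrimrecPred.and (PrimrecPred.and ?_ ?_) (PrimrecPred.and (PrimrecPred.not ?_)
    (pall (Primrec.snd.comp Primrec.snd) (piff ?_ ?_)))) ?_ (Primrec.snd.comp Primrec.snd)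
  · exact Primrec.nat_le.comp (Primrec.fst.comp (Primrec.snd.comp (Primrec.fst.comp Primrec.fst)))
      (Primrec.fst.comp Primrec.snd)
  · exact Primrec.eq.comp ((Primrec.list_getD false).comp
      (Primrec.snd.comp (Primrec.snd.comp (Primrec.fst.comp Primrec.fst)))
      (Primrec.fst.comp Primrec.snd)) (Primrec.const true)
  · exact pmem (Primrec.snd.comp (Primrec.snd.comp Primrec.fst)) (Primrec.snd.comp Primrec.snd)
  · exact pmem (Primrec.snd.pair
      (Primrec.snd.comp (Primrec.snd.comp (Primrec.fst.comp Primrec.fst))))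
      (Primrec.fst.comp (Primrec.snd.comp (Primrec.fst.comp Primrec.fst)))
  · exact Primrec.eq.comp (Primrec.fst.comp (Primrec.fst.comp (Primrec.fst.comp Primrec.fst)))
      (Primrec.const true)
  · exact Primrec.list_concat.comp (Primrec.snd.comp Primrec.snd)
      (Primrec.snd.comp (Primrec.snd.comp Primrec.fst))

/-- The strings listed after `n` steps. -/
def lst (b : Bool) (s : ℕ) (τ : List Bool) (L : List (List Bool × List Bool))
    (g : ℕ → List Bool) (n : ℕ) : List (List Bool) :=
  Nat.rec [] (fun x acc => stp b s τ L (g x) x acc) n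

section Lst

variable (b : Bool) (s : ℕ) (τ : List Bool) (L : List (List Bool × List Bool))
  (g : ℕ → List Bool)

lemma lst_succ (n : ℕ) : lst b s τ L g (n + 1) = stp b s τ L (g n) n (lst b s τ L g n) := rfl

lemma lst_mono {n n' : ℕ} (h : n ≤ n') : lst b s τ L g n <+: lst b s τ L g n' := by
  induction n', h using Nat.le_induction with
  | base => exact List.prefix_rfl
  | succ n' _ ih =>
    refine ih.trans ?_
    rw [lst_succ, stp]
    split_ifs
    · exact List.prefix_append _ _
    · exact List.prefix_rfl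

lemma lst_append (ρ : List Bool) (n : ℕ) (h : n ≤ τ.length) :
    lst b s (τ ++ ρ) L g n = lst b s τ L g n := by
  induction n with
  | zero => rfl
  | succ n ih =>
    have : (τ ++ ρ).getD n false = τ.getD n false := by
      rw [List.getD_eq_getElem?_getD, List.getD_eq_getElem?_getD,
        List.getElem?_append_left (by omega)]
    rw [lst_succ, lst_succ, ih (by omega), stp, stp, this]

lemma lst_inv (n : ℕ) : (∀ u ∈ lst b s τ L g n, ∃ x, s ≤ x ∧ τ.getD x false = true ∧ u = g x) ∧
    (lst b s τ L g n).Pairwise fun u v => u ≠ v ∧ ((u, v) ∈ L ↔ b = true) := by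
  induction n with
  | zero => simp [lst]
  | succ n ih =>
    rw [lst_succ, stp]
    split_ifs with h
    · refine ⟨fun u hu => ?_, List.pairwise_append.2 ⟨ih.2, by simp, fun u hu v hv => ?_⟩⟩
      · rcases List.mem_append.1 hu with hu | hu
        · exact ih.1 u hu
        · exact ⟨n, h.1.1, h.1.2, by simpa using hu⟩
      · obtain rfl : v = g n := by simpa using hv
        exact ⟨fun e => h.2.1 (e ▸ hu), h.2.2 u hu⟩
    · exact ih

lemma lst_short {m : ℕ} (hL : Ram m L) (hg : ∀ x, (g x).length = m) (n : ℕ) :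
    (lst b s τ L g n).length < 2 * (2 * m + 2) := by
  by_contra h
  obtain ⟨h1, h2⟩ := lst_inv b s τ L g n
  have h3 := h2.sublist (List.take_sublist (2 * (2 * m + 2)) _)
  obtain ⟨u, hu, v, hv, h4⟩ := hL ((lst b s τ L g n).take (2 * (2 * m + 2)))
    ((mem_words _ _ _).2 ⟨by simp; omega, fun u hu => by
      obtain ⟨x, -, -, rfl⟩ := h1 u (List.mem_of_mem_take hu)
      simp [hg]⟩) (h3.imp fun h => h.1) b (by cases b <;> simp)
  rw [← List.take_append_drop (2 * m + 2) (List.take _ _), List.pairwise_append] at h3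
  exact h4 (h3.2.2 u hu v hv).2

lemma lst_mem {σ : List Bool} {T : ℕ} (hT : ∀ t, T ≤ t → g t = σ) {X : Set ℕ} (hX : X.Infinite)
    (h : ∀ x ∈ X, s ≤ x → g x = σ ∨ ((g x, σ) ∈ L ↔ b = true)) :
    ∃ n, σ ∈ lst b s (initSeg X n) L g n := by
  obtain ⟨x, hx, hs⟩ := hX.exists_gt (max s T)
  refine ⟨x + 1, ?_⟩
  rw [lst_succ, stp, hT x (by omega)]
  split_ifs with h1
  · simp
  · by_contra h2
    refine h1 ⟨⟨by omega, (getD_initSeg _ _ _).2 ⟨by omega, hx⟩⟩, h2, fun u hu => ?_⟩
    obtain ⟨y, h3, h4, rfl⟩ := (lst_inv _ _ _ _ _ _).1 u hu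
    exact (h y ((getD_initSeg _ _ _).1 h4).2 h3).resolve_left fun e => h2 (e ▸ hu)

end Lst

/-- The decoder: the program gives a colour, an index, and by its length all parameters. -/
noncomputable def lister (c : Code) (ρ : ℕ → List (List Bool × List Bool)) :
    List Bool × List Bool →. List Bool := fun y =>
  ((lst (y.1.getD 0 false) (y.1.length - 4).unpair.2.unpair.1 y.2 (ρ (2 ^ (y.1.length - 4)))
    (fun x => approx c (2 ^ (y.1.length - 4), (y.1.length - 4).unpair.1, x))
    y.2.length)[val y.1.tail]? : Option (List Bool))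

lemma lister_isOracleMachine (c : Code) {ρ : ℕ → List (List Bool × List Bool)}
    (hρ : Computable ρ) : IsOracleMachine (lister c ρ) := by
  refine ⟨Computable.ofOption ?_, fun p τ τ' σ h => ?_⟩
  · have ha : Primrec fun y : List Bool × List Bool => y.1.length - 4 :=
      Primrec.nat_sub.comp (Primrec.list_length.comp Primrec.fst) (Primrec.const 4)
    have h1 : Primrec fun y : (List Bool × List Bool) × ℕ × List (List Bool) =>
        (y.1.1.getD 0 false, (y.1.1.length - 4).unpair.2.unpair.1, y.1.2) :=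
      ((Primrec.list_getD false).comp (Primrec.fst.comp Primrec.fst) (Primrec.const 0)).pair
        ((Primrec.fst.comp (Primrec.unpair.comp (Primrec.snd.comp (Primrec.unpair.comp
          (ha.comp Primrec.fst))))).pair (Primrec.snd.comp Primrec.fst))
    have h2 : Primrec fun y : (List Bool × List Bool) × ℕ × List (List Bool) =>
        2 ^ (y.1.1.length - 4) := ptwo_pow.comp (ha.comp Primrec.fst)
    have h3 : Primrec fun y : (List Bool × List Bool) × ℕ × List (List Bool) =>
        (2 ^ (y.1.1.length - 4), (y.1.1.length - 4).unpair.1, y.2.1) :=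
      h2.pair ((Primrec.fst.comp (Primrec.unpair.comp
        (ha.comp Primrec.fst))).pair (Primrec.fst.comp Primrec.snd))
    have h4 := stp_primrec.to_comp.comp ((h1.to_comp.pair ((hρ.comp h2.to_comp).pair
      ((approx_computable c).comp h3.to_comp))).pair Computable.snd)
    have h5 : Computable₂ fun (y : List Bool × List Bool) (z : ℕ × List (List Bool)) =>
        stp (y.1.getD 0 false) (y.1.length - 4).unpair.2.unpair.1 y.2 (ρ (2 ^ (y.1.length - 4)))
          (approx c (2 ^ (y.1.length - 4), (y.1.length - 4).unpair.1, z.1)) z.1 z.2 :=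
      h4.of_eq fun y => by simp only
    have h6 := Computable.nat_rec (Primrec.list_length.comp Primrec.snd).to_comp
      (Computable.const []) h5
    have h7 := Computable.list_getElem?.comp h6
      (val_primrec.comp (Primrec.list_tail.comp Primrec.fst)).to_comp
    exact h7.of_eq fun y => by simp only [lst]
  · simp only [lister, Part.mem_coe, Option.mem_def] at h ⊢
    rw [← lst_append _ _ _ _ _ τ' _ le_rfl] at h
    obtain ⟨r, hr⟩ := lst_mono (p.getD 0 false) (p.length - 4).unpair.2.unpair.1 (τ ++ τ')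
      (ρ (2 ^ (p.length - 4))) (fun x => approx c (2 ^ (p.length - 4), (p.length - 4).unpair.1, x))
      (n := τ.length) (n' := (τ ++ τ').length) (by simp)
    rw [← hr, List.getElem?_append_left (List.getElem?_eq_some_iff.1 h).1, h]

theorem main_upper {U : List Bool × ℕ →. List Bool} (hU : Partrec U)
    {V : List Bool × List Bool →. List Bool} (hV : OracleOptimal V) :
    ∃ (A : Set ℕ) (c : ℕ), ∀ N k : ℕ, ∃ (σ : List Bool) (a : ℕ), k ≤ a ∧
      (⨆ (X : Set ℕ) (_ : X.Infinite ∧ (X ⊆ A ∨ X ⊆ Aᶜ)), oracleC V X σ) ≤ a + c ∧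
        2 ^ a ≤ ⨆ (n : ℕ) (_ : N ≤ n), condC U σ n := by
  obtain ⟨c, hc⟩ := exists_run hU
  choose T lim hlen hinc hlim using exists_limit c
  obtain ⟨ρ, hρ, hR⟩ := exists_choice ram_primrec exists_ram
  obtain ⟨cV, hcV⟩ := hV.2 _ (lister_isOracleMachine c hρ)
  let a : ℕ → ℕ → ℕ := fun i si => Nat.pair i.unpair.1 (Nat.pair si i)
  let s : ℕ → ℕ := fun i => Nat.rec 0 (fun i si => max (T (2 ^ a i si) i.unpair.1) (si + 1)) i
  have hs : ∀ i, s (i + 1) = max (T (2 ^ a i (s i)) i.unpair.1) (s i + 1) := fun i => rfl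
  have hmono : StrictMono s := strictMono_nat_of_lt_succ fun i => by rw [hs]; omega
  refine ⟨{t | ∃ i, s i ≤ t ∧ t < s (i + 1) ∧ (approx c (2 ^ a i (s i), i.unpair.1, t),
    lim (2 ^ a i (s i)) i.unpair.1) ∈ ρ (2 ^ a i (s i))}, 4 + cV, fun N k => ?_⟩
  obtain ⟨i, hi1, hi2⟩ : ∃ i : ℕ, i.unpair.1 = N ∧ k ≤ i :=
    ⟨Nat.pair N k, by simp, Nat.right_le_pair _ _⟩
  subst hi1
  refine ⟨lim (2 ^ a i (s i)) i.unpair.1, a i (s i),
    hi2.trans ((Nat.right_le_pair _ _).trans (Nat.right_le_pair _ _)), ?_, ?_⟩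
  · refine iSup₂_le fun X hX => (hcV X _).trans ?_
    obtain ⟨b, hb⟩ : ∃ b : Bool, ∀ x ∈ X, s i ≤ x → x < s (i + 1) →
        ((approx c (2 ^ a i (s i), i.unpair.1, x), lim (2 ^ a i (s i)) i.unpair.1) ∈
          ρ (2 ^ a i (s i)) ↔ b = true) := by
      rcases hX.2 with hA | hA
      · refine ⟨true, fun x hx h1 h2 => ?_⟩
        obtain ⟨j, h3, h4, h5⟩ := hA hx
        have e1 : j < i + 1 := hmono.lt_iff_lt.1 (by omega)
        have e2 : i < j + 1 := hmono.lt_iff_lt.1 (by omega)
        obtain rfl : j = i := by omega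
        simpa using h5
      · exact ⟨false, fun x hx h1 h2 => by simpa using fun h => hA hx ⟨i, h1, h2, h⟩⟩
    obtain ⟨n, hn⟩ := lst_mem b (s i) (ρ (2 ^ a i (s i)))
      (fun x => approx c (2 ^ a i (s i), i.unpair.1, x)) (hlim _ _) hX.1 fun x hx h1 => by
        by_cases h2 : x < s (i + 1)
        · exact Or.inr (hb x hx h1 h2)
        · exact Or.inl (hlim _ _ x (by rw [hs] at h2; omega))
    obtain ⟨j, hj, hj'⟩ := List.getElem_of_mem hn
    have h1 := lst_short b (s i) (initSeg X n) _
      (fun x => approx c (2 ^ a i (s i), i.unpair.1, x)) (hR (2 ^ a i (s i)))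
      (fun x => approx_length _ _) n
    have h2 : 0 < 2 ^ a i (s i) := by positivity
    obtain ⟨q, hq, hq'⟩ := exists_val (a i (s i) + 3) j (by rw [pow_add]; omega)
    rw [Nat.cast_add, ← add_assoc]
    gcongr
    refine iInf₂_le_of_le (b :: q) ⟨n, ?_⟩ (by simp [hq, add_assoc])
    have h3 : (b :: q).length - 4 = a i (s i) := by simp [hq]
    simp only [lister, h3, Part.mem_coe, Option.mem_def, length_initSeg, List.tail_cons, hq',
      List.getD_cons_zero]
    simp only [a, Nat.unpair_pair] at hj hj' ⊢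
    rw [List.getElem?_eq_getElem hj, hj']
  · refine le_iSup₂_of_le i.unpair.1 le_rfl (le_iInf₂ fun p hp => ?_)
    by_contra hlt
    exact hinc _ _ ⟨p, by exact_mod_cast not_le.1 hlt, (hc _ _).1 hp⟩

end Pool.Agent.Lib.MP_7b562e_lc
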