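import Pool.Agent.Lib.MP_7b562e_lc.Basic

namespace Pool.Agent.Lib.MP_7b562e_lc

open Encodable Nat.Partrec

/-- Total decoding of strings. -/
def dec (j : ℕ) : List Bool := (decode (α := List Bool) j).getD []

lemma dec_primrec : Primrec dec :=
  Primrec.option_getD.comp Primrec.decode (Primrec.const [])

@[simp] lemma dec_encode (w : List Bool) : dec (encode w) = w := by simp [dec]

/-- `w` is seen by time `t` to have a description shorter than `m` given `N`. -/
def Seen (c : Code) (m N t : ℕ) (w : List Bool) : Prop :=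
  ∃ j < t, (dec j).length < m ∧ run c (dec j, N) t = some w

/-- `e` codes a string of length `m` not yet seen to be compressible. -/
def Good (c : Code) (x : ℕ × ℕ × ℕ) (e : ℕ) : Prop :=
  (dec e).length = x.1 ∧ ¬ Seen c x.1 x.2.1 x.2.2 (dec e)

lemma good_primrec (c : Code) : PrimrecRel (Good c) := by
  unfold Good Seen
  have h1 : PrimrecRel fun (j : ℕ) (y : (ℕ × ℕ × ℕ) × ℕ) =>
      (dec j).length < y.1.1 ∧ run c (dec j, y.1.2.1) y.1.2.2 = some (dec y.2) := by
    refine PrimrecPred.and ?_ ?_
    · exact Primrec.nat_lt.comp (Primrec.list_length.comp (dec_primrec.comp Primrec.fst))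
        (Primrec.fst.comp (Primrec.fst.comp Primrec.snd))
    · refine Primrec.eq.comp ?_
        (Primrec.option_some.comp (dec_primrec.comp (Primrec.snd.comp Primrec.snd)))
      exact run_primrec.comp ((Primrec.const c).pair
        (((dec_primrec.comp Primrec.fst).pair
          (Primrec.fst.comp (Primrec.snd.comp (Primrec.fst.comp Primrec.snd)))).pair
          (Primrec.snd.comp (Primrec.snd.comp (Primrec.fst.comp Primrec.snd)))))
  refine PrimrecPred.and ?_ (PrimrecPred.not ?_)
  · exact Primrec.eq.comp (Primrec.list_length.comp (dec_primrec.comp Primrec.snd))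
      (Primrec.fst.comp Primrec.fst)
  · have h2 := (PrimrecRel.exists_mem_list h1).comp
      (Primrec.list_range.comp
        (Primrec.snd.comp (Primrec.snd.comp (Primrec.fst (α := ℕ × ℕ × ℕ) (β := ℕ)))))
      (Primrec.id (α := (ℕ × ℕ × ℕ) × ℕ))
    exact h2.of_eq (by simp)

/-- `w` has a description shorter than `m` given `N`. -/
def Compress (c : Code) (m N : ℕ) (w : List Bool) : Prop :=
  ∃ p : List Bool, p.length < m ∧ ∃ t, run c (p, N) t = some w

lemma Seen.compress {c : Code} {m N t : ℕ} {w : List Bool} (h : Seen c m N t w) :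
    Compress c m N w := by
  obtain ⟨j, -, h1, h2⟩ := h
  exact ⟨_, h1, t, h2⟩

lemma card_short (m : ℕ) : ∃ S : Finset (List Bool), S.card < 2 ^ m ∧
    ∀ p : List Bool, p.length < m → p ∈ S := by
  classical
  induction m with
  | zero => exact ⟨∅, by simp, by simp⟩
  | succ n ih =>
    obtain ⟨S, hS, hm⟩ := ih
    refine ⟨insert [] (S.image (List.cons true) ∪ S.image (List.cons false)), ?_, ?_⟩
    · have h1 := Finset.card_insert_le []
        (S.image (List.cons true) ∪ S.image (List.cons false))
      have h2 := Finset.card_union_le (S.image (List.cons true)) (S.image (List.cons false))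
      have h3 := Finset.card_image_le (s := S) (f := List.cons true)
      have h4 := Finset.card_image_le (s := S) (f := List.cons false)
      rw [pow_succ]
      omega
    · intro p hp
      cases p with
      | nil => simp
      | cons b q =>
        have := hm q (by simpa using hp)
        cases b <;> simp [this]

lemma exists_incompress (c : Code) (m N : ℕ) :
    ∃ w : List Bool, w.length = m ∧ ¬ Compress c m N w := by
  classical
  by_contra hcon
  push Not at hcon
  obtain ⟨S, hS, hm⟩ := card_short m
  choose! f hf1 t hf2 using hcon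
  have hinj : Function.Injective fun v : Fin m → Bool => (⟨f (List.ofFn v),
      hm _ (hf1 _ (by simp))⟩ : S) := by
    intro v v' h
    have h1 : f (List.ofFn v) = f (List.ofFn v') := by simpa using h
    have h2 := run_mono c _ (le_max_left (t (List.ofFn v)) (t (List.ofFn v')))
      (hf2 (List.ofFn v) (by simp))
    have h3 := run_mono c _ (le_max_right (t (List.ofFn v)) (t (List.ofFn v')))
      (hf2 (List.ofFn v') (by simp))
    rw [h1, Option.mem_def, Option.mem_def.1 h3] at h2
    exact (List.ofFn_injective (Option.some.inj h2)).symm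
  have := Fintype.card_le_of_injective _ hinj
  simp at this
  omega

lemma exists_good (c : Code) (x : ℕ × ℕ × ℕ) : ∃ e, Good c x e := by
  obtain ⟨w, h1, h2⟩ := exists_incompress c x.1 x.2.1
  exact ⟨encode w, by simpa using h1, fun h => h2 (by simpa using h.compress)⟩

open Classical in
/-- The stage-`t` approximation: first string of length `m` not yet seen to be compressible. -/
noncomputable def approx (c : Code) (x : ℕ × ℕ × ℕ) : List Bool :=
  dec (Nat.find (exists_good c x))

lemma approx_computable (c : Code) : Computable (approx c) := by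
  classical
  have h1 : Partrec fun x : ℕ × ℕ × ℕ =>
      Nat.rfind fun e => (Part.some (decide (Good c x e)) : Part Bool) :=
    Partrec.rfind (good_primrec c).decide.to_comp.partrec₂
  refine (h1.map (dec_primrec.comp Primrec.snd).to_comp.to₂).of_eq_tot fun x => ?_
  refine Part.mem_map _ ?_
  rw [Nat.mem_rfind]
  refine ⟨Part.mem_some_iff.2 (decide_eq_true (Nat.find_spec (exists_good c x))).symm,
    fun {m} hm => ?_⟩
  exact Part.mem_some_iff.2 (decide_eq_false (Nat.find_min (exists_good c x) hm)).symm

lemma approx_length (c : Code) (x : ℕ × ℕ × ℕ) : (approx c x).length = x.1 := by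
  classical
  exact (Nat.find_spec (exists_good c x)).1

lemma exists_settle (c : Code) (m N : ℕ) : ∃ T, ∀ t, T ≤ t → ∀ w,
    Compress c m N w → Seen c m N t w := by
  classical
  obtain ⟨S, -, hm⟩ := card_short m
  have h1 : ∀ p : List Bool, ∃ T, ∀ t w, run c (p, N) t = some w → run c (p, N) T = some w := by
    intro p
    by_cases h : ∃ t w, run c (p, N) t = some w
    · obtain ⟨T, w, hw⟩ := h
      refine ⟨T, fun t w' hw' => ?_⟩
      have h2 := run_mono c _ (le_max_left T t) hw
      have h3 := run_mono c _ (le_max_right T t) hw'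
      rw [Option.mem_def, Option.mem_def.1 h3] at h2
      rw [hw, Option.some.inj h2]
    · exact ⟨0, fun t w hw => absurd ⟨t, w, hw⟩ h⟩
  choose g hg using h1
  refine ⟨S.sup fun p => max (g p) (encode p + 1), fun t ht w hw => ?_⟩
  obtain ⟨p, hp, s, hs⟩ := hw
  have h2 : max (g p) (encode p + 1) ≤ t :=
    (Finset.le_sup (f := fun p => max (g p) (encode p + 1)) (hm p hp)).trans ht
  refine ⟨encode p, by omega, by simpa using hp, ?_⟩
  rw [dec_encode]
  exact run_mono c _ (by omega) (hg p s w hs)

lemma exists_limit (c : Code) (m N : ℕ) : ∃ (T : ℕ) (σ : List Bool), σ.length = m ∧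
    ¬ Compress c m N σ ∧ ∀ t, T ≤ t → approx c (m, N, t) = σ := by
  classical
  obtain ⟨T, hT⟩ := exists_settle c m N
  have key : ∀ t, T ≤ t → ∀ e, Good c (m, N, t) e ↔
      (dec e).length = m ∧ ¬ Compress c m N (dec e) := by
    intro t ht e
    exact ⟨fun h => ⟨h.1, fun h' => h.2 (hT t ht _ h')⟩,
      fun h => ⟨h.1, fun h' => h.2 h'.compress⟩⟩
  refine ⟨T, approx c (m, N, T), approx_length _ _,
    ((key T le_rfl _).1 (Nat.find_spec (exists_good c (m, N, T)))).2, fun t ht => ?_⟩
  unfold approx
  congr 1
  apply le_antisymm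
  · exact Nat.find_min' _ ((key t ht _).2 ((key T le_rfl _).1 (Nat.find_spec _)))
  · exact Nat.find_min' _ ((key T le_rfl _).2 ((key t ht _).1 (Nat.find_spec _)))

/-- Stage approximation used by the decoder on program `p` at oracle position `x`. -/
noncomputable def cur (c : Code) (p : List Bool) (x : ℕ) : List Bool :=
  approx c (2 * (tl p).length, (hd p).unpair.2.unpair.1, x)

lemma cur_computable (c : Code) : Computable₂ (cur c) := by
  unfold cur
  refine (approx_computable c).comp (Primrec.to_comp ?_)
  exact (Primrec.nat_mul.comp (Primrec.const 2)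
      (Primrec.list_length.comp (tl_primrec.comp Primrec.fst))).pair
    ((Primrec.fst.comp (Primrec.unpair.comp (Primrec.snd.comp
      (Primrec.unpair.comp (hd_primrec.comp Primrec.fst))))).pair Primrec.snd)

/-- One search step of the decoder, given the current approximation `w`. -/
def dstep (p τ : List Bool) (x : ℕ) (w : List Bool) : Option (List Bool) :=
  if (hd p).unpair.2.unpair.2 ≤ x ∧ τ.getD x false = true then
    if (hd p).unpair.1 = 0 then some (w.take (tl p).length ++ tl p)
    else if w.take (tl p).length = tl p then some w else Option.none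
  else Option.none

lemma dstep_primrec : Primrec fun y : ((List Bool × List Bool) × ℕ) × List Bool =>
    dstep y.1.1.1 y.1.1.2 y.1.2 y.2 := by
  unfold dstep
  have hp : Primrec fun y : ((List Bool × List Bool) × ℕ) × List Bool => y.1.1.1 :=
    Primrec.fst.comp (Primrec.fst.comp Primrec.fst)
  have hτ : Primrec fun y : ((List Bool × List Bool) × ℕ) × List Bool => y.1.1.2 :=
    Primrec.snd.comp (Primrec.fst.comp Primrec.fst)
  have hx : Primrec fun y : ((List Bool × List Bool) × ℕ) × List Bool => y.1.2 :=
    Primrec.snd.comp Primrec.fst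
  have htake : Primrec fun y : ((List Bool × List Bool) × ℕ) × List Bool =>
      y.2.take (tl y.1.1.1).length :=
    Primrec.list_take.comp (Primrec.list_length.comp (tl_primrec.comp hp)) Primrec.snd
  refine Primrec.ite (PrimrecPred.and ?_ ?_) (Primrec.ite ?_ ?_ (Primrec.ite ?_ ?_ ?_)) ?_
  · exact Primrec.nat_le.comp (Primrec.snd.comp (Primrec.unpair.comp (Primrec.snd.comp
      (Primrec.unpair.comp (hd_primrec.comp hp))))) hx
  · exact Primrec.eq.comp ((Primrec.list_getD false).comp hτ hx) (Primrec.const true)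
  · exact Primrec.eq.comp (Primrec.fst.comp (Primrec.unpair.comp (hd_primrec.comp hp)))
      (Primrec.const 0)
  · exact Primrec.option_some.comp (Primrec.list_append.comp htake (tl_primrec.comp hp))
  · exact Primrec.eq.comp htake (tl_primrec.comp hp)
  · exact Primrec.option_some.comp Primrec.snd
  · exact Primrec.const _
  · exact Primrec.const _

/-- The decoder. -/
noncomputable def decoder (c : Code) : List Bool × List Bool →. List Bool :=
  fun y => Nat.rfindOpt fun x => dstep y.1 y.2 x (cur c y.1 x)

lemma decoder_isOracleMachine (c : Code) : IsOracleMachine (decoder c) := by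
  refine ⟨Partrec.rfindOpt ?_, ?_⟩
  · have h1 : Computable fun y : (List Bool × List Bool) × ℕ => cur c y.1.1 y.2 :=
      (cur_computable c).comp (Computable.fst.comp Computable.fst) Computable.snd
    have h2 := dstep_primrec.to_comp.comp (Computable.id.pair h1)
    exact h2.of_eq fun y => by simp only [id]
  · intro p τ ρ σ h
    unfold decoder at h ⊢
    rw [mem_rfindOpt] at h ⊢
    obtain ⟨n, h1, h2⟩ := h
    have hn : n < τ.length := by
      by_contra hn
      have : τ.getD n false = false := by
        rw [List.getD_eq_getElem?_getD, List.getElem?_eq_none (by omega)]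
        rfl
      simp only [dstep, this] at h1
      simp at h1
    have key : ∀ m ≤ n, ∀ w, dstep p (τ ++ ρ) m w = dstep p τ m w := by
      intro m hm w
      have : (τ ++ ρ).getD m false = τ.getD m false := by
        rw [List.getD_eq_getElem?_getD, List.getD_eq_getElem?_getD,
          List.getElem?_append_left (by omega)]
      simp only [dstep, this]
    exact ⟨n, by rw [← h1]; exact key n le_rfl _, fun m hm => by
      rw [← h2 m hm]; exact key m hm.le _⟩

lemma decoder_same (c : Code) (N s k : ℕ) (σ : List Bool) (hσ : σ.length = 2 * k) (X : Set ℕ)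
    (hX : X.Infinite) (h : ∀ x ∈ X, s ≤ x → (approx c (2 * k, N, x)).take k = σ.take k) :
    ∃ n, σ ∈ decoder c (mk (Nat.pair 0 (Nat.pair N s)) (σ.drop k), initSeg X n) := by
  classical
  have hex : ∃ x, s ≤ x ∧ x ∈ X := by
    obtain ⟨x, hx, hs⟩ := hX.exists_gt s
    exact ⟨x, hs.le, hx⟩
  have hk : (σ.drop k).length = k := by simp; omega
  refine ⟨Nat.find hex + 1, ?_⟩
  unfold decoder
  rw [mem_rfindOpt]
  refine ⟨Nat.find hex, ?_, fun m hm => ?_⟩
  · have h1 := Nat.find_spec hex
    have h2 := (getD_initSeg X (Nat.find hex + 1) (Nat.find hex)).2 ⟨by omega, h1.2⟩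
    simp only [dstep, cur, hd_mk, tl_mk, Nat.unpair_pair, hk, h1.1, h2, and_self, if_true,
      h _ h1.2 h1.1, List.take_append_drop]
  · have h1 := Nat.find_min hex hm
    have h2 : ¬ (s ≤ m ∧ (initSeg X (Nat.find hex + 1)).getD m false = true) := by
      rw [getD_initSeg]
      tauto
    simp only [dstep, hd_mk, Nat.unpair_pair, h2, if_false]

lemma decoder_diff (c : Code) (N s k T : ℕ) (σ : List Bool) (hσ : σ.length = 2 * k) (X : Set ℕ)
    (hX : X.Infinite) (hT : ∀ t, T ≤ t → approx c (2 * k, N, t) = σ)
    (h : ∀ x ∈ X, s ≤ x → (approx c (2 * k, N, x)).take k = σ.take k → T ≤ x) :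
    ∃ n, σ ∈ decoder c (mk (Nat.pair 1 (Nat.pair N s)) (σ.take k), initSeg X n) := by
  classical
  have hex : ∃ x, s ≤ x ∧ x ∈ X ∧ (approx c (2 * k, N, x)).take k = σ.take k := by
    obtain ⟨x, hx, hs⟩ := hX.exists_gt (max s T)
    exact ⟨x, by omega, hx, by rw [hT x (by omega)]⟩
  have hk : (σ.take k).length = k := by simp; omega
  refine ⟨Nat.find hex + 1, ?_⟩
  unfold decoder
  rw [mem_rfindOpt]
  refine ⟨Nat.find hex, ?_, fun m hm => ?_⟩
  · have h1 := Nat.find_spec hex
    have h2 := (getD_initSeg X (Nat.find hex + 1) (Nat.find hex)).2 ⟨by omega, h1.2.1⟩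
    have h3 := hT _ (h _ h1.2.1 h1.1 h1.2.2)
    simp only [dstep, cur, hd_mk, tl_mk, Nat.unpair_pair, hk, h1.1, h2, and_self, if_true,
      h3, one_ne_zero, if_false]
  · have h1 := Nat.find_min hex hm
    simp only [dstep, cur, hd_mk, tl_mk, Nat.unpair_pair, hk, one_ne_zero, if_false,
      getD_initSeg]
    split_ifs with h2 h3
    · exact absurd ⟨h2.1, h2.2.2, h3⟩ h1
    · rfl
    · rfl

/-- Half length used in window `i` starting at `s`. -/
def half (i s : ℕ) : ℕ := Nat.pair 1 (Nat.pair i.unpair.1 s) + 2 + i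

theorem main {U : List Bool × ℕ →. List Bool} (hU : Partrec U)
    {V : List Bool × List Bool →. List Bool} (hV : OracleOptimal V) :
    ∃ A : Set ℕ, ∀ N c : ℕ, ∃ σ : List Bool,
      (⨆ (X : Set ℕ) (_ : X.Infinite ∧ (X ⊆ A ∨ X ⊆ Aᶜ)), oracleC V X σ) + c <
        ⨆ (n : ℕ) (_ : N ≤ n), condC U σ n := by
  obtain ⟨c, hc⟩ := exists_run hU
  choose T lim hlen hinc hlim using exists_limit c
  obtain ⟨cV, hcV⟩ := hV.2 _ (decoder_isOracleMachine c)
  let s : ℕ → ℕ := fun i => Nat.rec 0
    (fun i si => max (T (2 * half i si) i.unpair.1) (si + 1)) i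
  have hs : ∀ i, s (i + 1) = max (T (2 * half i (s i)) i.unpair.1) (s i + 1) := fun i => rfl
  have hmono : StrictMono s := strictMono_nat_of_lt_succ fun i => by rw [hs]; omega
  refine ⟨{t | ∃ i, s i ≤ t ∧ t < s (i + 1) ∧
    (approx c (2 * half i (s i), i.unpair.1, t)).take (half i (s i)) =
      (lim (2 * half i (s i)) i.unpair.1).take (half i (s i))}, fun N d => ?_⟩
  obtain ⟨i, hi1, hi2⟩ : ∃ i : ℕ, i.unpair.1 = N ∧ cV + d ≤ i :=
    ⟨Nat.pair N (cV + d), by simp, Nat.right_le_pair _ _⟩
  subst hi1
  set k := half i (s i) with hk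
  set σ := lim (2 * k) i.unpair.1 with hσ
  have hσl : σ.length = 2 * k := hlen _ _
  have hTs : T (2 * k) i.unpair.1 ≤ s (i + 1) := by rw [hs]; exact le_max_left _ _
  refine ⟨σ, ?_⟩
  have hlow : ((2 * k : ℕ) : ℕ∞) ≤ ⨆ (n : ℕ) (_ : i.unpair.1 ≤ n), condC U σ n := by
    refine le_iSup₂_of_le i.unpair.1 le_rfl ?_
    refine le_iInf₂ fun p hp => ?_
    have := hinc (2 * k) i.unpair.1
    by_contra hlt
    exact this ⟨p, by exact_mod_cast not_le.1 hlt, (hc _ _).1 hp⟩
  have hup : (⨆ (X : Set ℕ) (_ : X.Infinite ∧ (X ⊆ {t | ∃ i, s i ≤ t ∧ t < s (i + 1) ∧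
      (approx c (2 * half i (s i), i.unpair.1, t)).take (half i (s i)) =
        (lim (2 * half i (s i)) i.unpair.1).take (half i (s i))} ∨ X ⊆ {t | ∃ i, s i ≤ t ∧
      t < s (i + 1) ∧ (approx c (2 * half i (s i), i.unpair.1, t)).take (half i (s i)) =
        (lim (2 * half i (s i)) i.unpair.1).take (half i (s i))}ᶜ)), oracleC V X σ) ≤
      ((k + (Nat.pair 1 (Nat.pair i.unpair.1 (s i)) + 1) + cV : ℕ) : ℕ∞) := by
    refine iSup₂_le fun X hX => (hcV X σ).trans ?_
    rw [Nat.cast_add _ cV]
    gcongr
    rcases hX.2 with hA | hA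
    · refine iInf₂_le_of_le _ (decoder_same c i.unpair.1 (s i) k σ hσl X hX.1 ?_) ?_
      · intro x hx hsx
        by_cases hx2 : x < s (i + 1)
        · obtain ⟨j, h1, h2, h3⟩ := hA hx
          have e1 : j < i + 1 := hmono.lt_iff_lt.1 (by omega)
          have e2 : i < j + 1 := hmono.lt_iff_lt.1 (by omega)
          obtain rfl : j = i := by omega
          exact h3
        · rw [hlim _ _ x (by omega)]
      · have h1 : Nat.pair 0 (Nat.pair i.unpair.1 (s i)) < Nat.pair 1 (Nat.pair i.unpair.1 (s i)) :=
          Nat.pair_lt_pair_left _ (by omega)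
        have h2 : (σ.drop k).length = k := by simp; omega
        rw [length_mk, h2]
        exact_mod_cast by omega
    · refine iInf₂_le_of_le _ (decoder_diff c i.unpair.1 (s i) k (T (2 * k) i.unpair.1) σ hσl X
        hX.1 (hlim _ _) ?_) ?_
      · intro x hx hsx h3
        by_contra hlt
        exact hA hx ⟨i, hsx, by omega, h3⟩
      · have h2 : (σ.take k).length = k := by simp; omega
        rw [length_mk, h2]
  refine lt_of_le_of_lt (add_le_add_left hup _) (lt_of_lt_of_le ?_ hlow)
  have : k = Nat.pair 1 (Nat.pair i.unpair.1 (s i)) + 2 + i := rfl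
  exact_mod_cast by omega

end Pool.Agent.Lib.MP_7b562e_lc
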